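import Pool.Agent.H58.FL.AsmD
import Pool.Agent.H58.FM.Asm
import Pool.Agent.H5.FN.PBS
import Pool.Agent.H13.FNC.SX3
import Pool.Agent.H14.FN.PX7
import Pool.Agent.H14.FN.PX8
import Pool.Agent.H64.FN.CLP
import Pool.Agent.H64.FN.AB3
import Pool.Agent.H90.FN.ODD
import Pool.Agent.H35.FN.GLU
import Pool.Agent.H67.FN.UMM
import Pool.Agent.H1.FN.PRM
import Pool.Agent.H49.FN.INT
import Pool.Agent.H42.FN.MLB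
import Pool.Agent.H12.FN.SEL3
import Pool.Agent.H1.FN.CLQ
import Pool.Agent.H36.FN.LB4
import Pool.Agent.H36.FN.LB6
import Pool.Agent.H31.FN.FM4
import Pool.Agent.H17.FN.FM6
import Pool.Agent.H89.FN.FOV
import Pool.Agent.H75.FN.FR3
import Pool.Agent.H17.FN.NMP
import Pool.Agent.H57.FN.VAL
import Pool.Agent.H12.FN.CO3
import Pool.Agent.H91.FN.TR3
import Pool.Agent.H61.FN.MN3
import Pool.Agent.H86.FRW.W4A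
import Pool.Agent.H54.FN.R5A3
import Pool.Agent.H55.FN.R53
import Pool.Agent.H23.FN.HEX3
import Pool.Agent.H7.FN.TTT3
import Pool.Agent.H96.FN.GE3
import Pool.Agent.H73.FN.EX3

/-!
MP_6a7a6f_gt: composition of the rows of the board fnc_modules.
-/

namespace Pool.Agent.H58.FN.A

open Pool.Agent.H58.FN

theorem cPBS : Pool.Agent.H58.FN.T_PBS :=
  Pool.Agent.H5.FN.pf_PBS

theorem cSX3 : Pool.Agent.H58.FN.T_SX3 :=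
  Pool.Agent.H13.FNC.pf_SX3 cPBS

theorem cPX7 : Pool.Agent.H58.FN.T_PX7 :=
  Pool.Agent.H14.FN.pf_PX7 cPBS

theorem cPX8 : Pool.Agent.H58.FN.T_PX8 :=
  Pool.Agent.H14.FN.pf_PX8 cPBS cPX7

theorem cCLP : Pool.Agent.H58.FN.T_CLP :=
  Pool.Agent.H64.FN.pf_CLP cPBS Pool.Agent.H58.FL.A.aCL6 cSX3 cPX7 cPX8

theorem cAB3 : Pool.Agent.H58.FN.T_AB3 :=
  Pool.Agent.H64.FN.pf_AB3 Pool.Agent.H58.FM.A.bSPL Pool.Agent.H58.FM.A.bNIL Pool.Agent.H58.FM.A.bITW Pool.Agent.H58.FM.A.bBNX Pool.Agent.H58.FL.A.aCPL Pool.Agent.H58.FL.A.aEVB Pool.Agent.H58.FL.A.aEVL Pool.Agent.H58.FL.A.aLOW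

theorem cODD : Pool.Agent.H58.FN.T_ODD :=
  Pool.Agent.H90.FN.pf_ODD

theorem cGLU : Pool.Agent.H58.FN.T_GLU :=
  Pool.Agent.H35.FN.pf_GLU

theorem cUMM : Pool.Agent.H58.FN.T_UMM :=
  Pool.Agent.H67.FN.pf_UMM

theorem cPRM : Pool.Agent.H58.FN.T_PRM :=
  Pool.Agent.H1.FN.pf_PRM

theorem cINT : Pool.Agent.H58.FN.T_INT :=
  Pool.Agent.H49.FN.pf_INT

theorem cMLB : Pool.Agent.H58.FN.T_MLB :=
  Pool.Agent.H42.FN.pf_MLB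

theorem cSEL3 : Pool.Agent.H58.FN.T_SEL3 :=
  Pool.Agent.H12.FN.pf_SEL3

theorem cCLQ : Pool.Agent.H58.FN.T_CLQ :=
  Pool.Agent.H1.FN.pf_CLQ

theorem cLB4 : Pool.Agent.H58.FN.T_LB4 :=
  Pool.Agent.H36.FN.pf_LB4 cPBS cCLQ

theorem cLB6 : Pool.Agent.H58.FN.T_LB6 :=
  Pool.Agent.H36.FN.pf_LB6 cPBS cCLQ

theorem cFM4 : Pool.Agent.H58.FN.T_FM4 :=
  Pool.Agent.H31.FN.pf_FM4 cUMM cPRM cMLB cCLQ cLB4

theorem cFM6 : Pool.Agent.H58.FN.T_FM6 :=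
  Pool.Agent.H17.FN.pf_FM6 cPBS cUMM cPRM cCLQ cLB6

theorem cFOV : Pool.Agent.H58.FN.T_FOV :=
  Pool.Agent.H89.FN.pf_FOV cPBS cPRM cMLB cCLQ cLB4 cLB6

theorem cFR3 : Pool.Agent.H58.FN.T_FR3 :=
  Pool.Agent.H75.FN.pf_FR3 cGLU cINT cCLQ cFM4 cFM6 cFOV

theorem cNMP : Pool.Agent.H58.FN.T_NMP :=
  Pool.Agent.H17.FN.pf_NMP

theorem cVAL : Pool.Agent.H58.FN.T_VAL :=
  Pool.Agent.H57.FN.pf_VAL cNMP Pool.Agent.H58.FM.A.bCHG Pool.Agent.H58.FL.A.aRPM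

theorem cCO3 : Pool.Agent.H58.FN.T_CO3 :=
  Pool.Agent.H12.FN.pf_CO3 cFR3 cSEL3 cAB3 cODD cVAL cNMP Pool.Agent.H58.FM.A.bWGT Pool.Agent.H58.FM.A.bCR1 Pool.Agent.H58.FL.A.aRPM Pool.Agent.H58.FL.A.aEVL

theorem cTR3 : Pool.Agent.H58.FN.T_TR3 :=
  Pool.Agent.H91.FN.pf_TR3 Pool.Agent.H58.FL.A.aTR2

theorem cMN3 : Pool.Agent.H58.FN.T_MN3 :=
  Pool.Agent.H61.FN.MN3.pf_MN3 cTR3

theorem cW4A : Pool.Agent.H58.FN.T_W4A :=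
  Pool.Agent.H86.FRW.pf_W4A cTR3

theorem cR5A3 : Pool.Agent.H58.FN.T_R5A3 :=
  Pool.Agent.H54.FN.pf_R5A3 cW4A cMN3

theorem cR53 : Pool.Agent.H58.FN.T_R53 :=
  Pool.Agent.H55.FN.pf_R53 cMN3 cR5A3

theorem cHEX3 : Pool.Agent.H58.FN.T_HEX3 :=
  Pool.Agent.H23.FN.pf_HEX3 cW4A cMN3 cR53

theorem cTTT3 : Pool.Agent.H58.FN.T_TTT3 :=
  Pool.Agent.H7.FN.TTT3.pf_TTT3 cW4A cMN3 cR53

theorem cGE3 (hX73 : T_X73) (hHP3 : T_HP3) : T_GE3 :=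
  Pool.Agent.H96.FN.pf_GE3 cMN3 cR53 cHEX3 cTTT3 hX73 hHP3 cCLP

theorem cRD3 : T_RD3 := Pool.Agent.H91.FN.pf_RD3

theorem cEX3 (hX73 : T_X73) (hHP3 : T_HP3) : T_EX3 :=
  Pool.Agent.H73.FN.pf_EX3 (cGE3 hX73 hHP3) cCO3 cRD3

end Pool.Agent.H58.FN.A
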