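import Mathlib

/-!
MP_6a7a6f_gt: the linear program of the heptagonal pyramid (constants of helper41).
-/

set_option autoImplicit false

namespace Pool.Agent.H58.LP9

/-- the constraints -/
structure LPC (e m t : Fin 7 → ℝ) : Prop where
  hA : ∀ k, t k ≤ 11 / 14
  hZ1 : ∀ k, e k + m (k + 1) ≤ 6755 / 10000 - 1 / 10 * (11 / 14 - t k)
  hZ2 : ∀ k, e k + m (k + 5) ≤ 6755 / 10000 - 1 / 10 * (11 / 14 - t (k + 5))
  hw1 : ∀ k, e k + 932 / 10000 ≤ m k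
  hw2 : ∀ k, e (k + 1) + 932 / 10000 ≤ m k
  hw3 : ∀ k, m k + 932 / 10000 ≤ t k
  hw4 : ∀ k, m (k + 1) + 932 / 10000 ≤ t k
  hq : ∀ k, t (k + 1) + t (k + 4) ≤ 9 / 7 → 292 / 1000 ≤ e k
  hq' : ∀ k, 9 / 7 ≤ t (k + 1) + t (k + 4) →
    292 / 1000 - 279 / 1000 * (t (k + 1) + t (k + 4) - 9 / 7) ≤ e k
  hS : t 0 + t 1 + t 2 + t 3 + t 4 + t 5 + t 6 ≤ 9 / 2

namespace LPC

variable {e m t : Fin 7 → ℝ}

/-- rotation -/
theorem rot (h : LPC e m t) (r : Fin 7) :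
    LPC (fun k => e (k + r)) (fun k => m (k + r)) (fun k => t (k + r)) := by
  have c1 : ∀ k s : Fin 7, k + s + r = k + r + s := by decide +revert
  refine ⟨fun k => h.hA _, fun k => ?_, fun k => ?_, fun k => h.hw1 _, fun k => ?_,
    fun k => h.hw3 _, fun k => ?_, fun k hk => ?_, fun k hk => ?_, ?_⟩
  · have := h.hZ1 (k + r)
    simpa only [c1] using this
  · have := h.hZ2 (k + r)
    simpa only [c1] using this
  · have := h.hw2 (k + r)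
    simpa only [c1] using this
  · have := h.hw4 (k + r)
    simpa only [c1] using this
  · have := h.hq (k + r)
    simp only [c1] at hk
    exact this hk
  · have := h.hq' (k + r)
    simp only [c1] at hk ⊢
    exact this hk
  · have hs := h.hS
    have h0 : ∑ k : Fin 7, t (k + r) = ∑ k : Fin 7, t k :=
      Equiv.sum_comp (Equiv.addRight r) t
    simp only [Fin.sum_univ_seven] at h0
    linarith

/-- neighbours of a low place are high -/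
theorem ex1 (h : LPC e m t) (k : Fin 7) (hk : t (k + 1) + t (k + 4) ≤ 9 / 7) :
    ¬ t (k + 1 + 1) + t (k + 1 + 4) ≤ 9 / 7 := by
  intro h2
  have a1 := h.hq k hk
  have a2 := h.hq (k + 1) h2
  have a3 := h.hZ1 k
  have a4 := h.hw1 (k + 1)
  have a5 := h.hA k
  linarith

theorem ex2 (h : LPC e m t) (k : Fin 7) (hk : t (k + 1) + t (k + 4) ≤ 9 / 7) :
    ¬ t (k + 2 + 1) + t (k + 2 + 4) ≤ 9 / 7 := by
  intro h2
  have a1 := h.hq k hk
  have a2 := h.hq (k + 2) h2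
  have a3 := h.hZ1 k
  have a4 := h.hw2 (k + 1)
  have e1 : ∀ k : Fin 7, k + 1 + 1 = k + 2 := by decide
  rw [e1] at a4
  have a5 := h.hA k
  linarith

/-- all places high -/
theorem none_low (h : LPC e m t) (hh : ∀ k, 9 / 7 ≤ t (k + 1) + t (k + 4)) : False := by
  have q0 : 292 / 1000 - 279 / 1000 * (t 1 + t 4 - 9 / 7) ≤ e 0 := h.hq' 0 (hh 0)
  have q1 : 292 / 1000 - 279 / 1000 * (t 2 + t 5 - 9 / 7) ≤ e 1 := h.hq' 1 (hh 1)
  have q2 : 292 / 1000 - 279 / 1000 * (t 3 + t 6 - 9 / 7) ≤ e 2 := h.hq' 2 (hh 2)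
  have q3 : 292 / 1000 - 279 / 1000 * (t 4 + t 0 - 9 / 7) ≤ e 3 := h.hq' 3 (hh 3)
  have q4 : 292 / 1000 - 279 / 1000 * (t 5 + t 1 - 9 / 7) ≤ e 4 := h.hq' 4 (hh 4)
  have q5 : 292 / 1000 - 279 / 1000 * (t 6 + t 2 - 9 / 7) ≤ e 5 := h.hq' 5 (hh 5)
  have q6 : 292 / 1000 - 279 / 1000 * (t 0 + t 3 - 9 / 7) ≤ e 6 := h.hq' 6 (hh 6)
  have z0 : e 0 + m 1 ≤ 6755 / 10000 - 1 / 10 * (11 / 14 - t 0) := h.hZ1 0
  have z1 : e 1 + m 2 ≤ 6755 / 10000 - 1 / 10 * (11 / 14 - t 1) := h.hZ1 1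
  have z2 : e 2 + m 3 ≤ 6755 / 10000 - 1 / 10 * (11 / 14 - t 2) := h.hZ1 2
  have z3 : e 3 + m 4 ≤ 6755 / 10000 - 1 / 10 * (11 / 14 - t 3) := h.hZ1 3
  have z4 : e 4 + m 5 ≤ 6755 / 10000 - 1 / 10 * (11 / 14 - t 4) := h.hZ1 4
  have z5 : e 5 + m 6 ≤ 6755 / 10000 - 1 / 10 * (11 / 14 - t 5) := h.hZ1 5
  have z6 : e 6 + m 0 ≤ 6755 / 10000 - 1 / 10 * (11 / 14 - t 6) := h.hZ1 6
  have w0 := h.hw1 0
  have w1 := h.hw1 1
  have w2 := h.hw1 2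
  have w3 := h.hw1 3
  have w4 := h.hw1 4
  have w5 := h.hw1 5
  have w6 := h.hw1 6
  have hS := h.hS
  linarith

/-- one place low -/
theorem one_low (h : LPC e m t) (h1 : 9 / 7 ≤ t 2 + t 5) (h2 : 9 / 7 ≤ t 3 + t 6)
    (h3 : 9 / 7 ≤ t 4 + t 0) (h4 : 9 / 7 ≤ t 5 + t 1) : False := by
  have q1 : 292 / 1000 - 279 / 1000 * (t 2 + t 5 - 9 / 7) ≤ e 1 := h.hq' 1 h1
  have q2 : 292 / 1000 - 279 / 1000 * (t 3 + t 6 - 9 / 7) ≤ e 2 := h.hq' 2 h2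
  have q3 : 292 / 1000 - 279 / 1000 * (t 4 + t 0 - 9 / 7) ≤ e 3 := h.hq' 3 h3
  have q4 : 292 / 1000 - 279 / 1000 * (t 5 + t 1 - 9 / 7) ≤ e 4 := h.hq' 4 h4
  have w1 : e 2 + 932 / 10000 ≤ m 1 := h.hw2 1
  have w2 : e 3 + 932 / 10000 ≤ m 2 := h.hw2 2
  have w3 : e 3 + 932 / 10000 ≤ m 3 := h.hw1 3
  have w4 : e 4 + 932 / 10000 ≤ m 3 := h.hw2 3
  have z1 : e 1 + m 2 ≤ 6755 / 10000 - 1 / 10 * (11 / 14 - t 1) := h.hZ1 1
  have z2 : e 2 + m 3 ≤ 6755 / 10000 - 1 / 10 * (11 / 14 - t 2) := h.hZ1 2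
  have z3 : e 3 + m 1 ≤ 6755 / 10000 - 1 / 10 * (11 / 14 - t 1) := h.hZ2 3
  have a5 := h.hA 5
  have hS := h.hS
  linarith

/-- two places low -/
theorem two_low (h : LPC e m t) (h4 : 9 / 7 ≤ t 5 + t 1) (h5 : 9 / 7 ≤ t 6 + t 2)
    (h6 : 9 / 7 ≤ t 0 + t 3) : False := by
  have q4 : 292 / 1000 - 279 / 1000 * (t 5 + t 1 - 9 / 7) ≤ e 4 := h.hq' 4 h4
  have q5 : 292 / 1000 - 279 / 1000 * (t 6 + t 2 - 9 / 7) ≤ e 5 := h.hq' 5 h5
  have q6 : 292 / 1000 - 279 / 1000 * (t 0 + t 3 - 9 / 7) ≤ e 6 := h.hq' 6 h6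
  have w1 : e 5 + 932 / 10000 ≤ m 4 := h.hw2 4
  have w2 : m 4 + 932 / 10000 ≤ t 4 := h.hw3 4
  have w3 : e 5 + 932 / 10000 ≤ m 5 := h.hw1 5
  have w4 : e 6 + 932 / 10000 ≤ m 5 := h.hw2 5
  have z1 : e 4 + m 5 ≤ 6755 / 10000 - 1 / 10 * (11 / 14 - t 4) := h.hZ1 4
  have z2 : e 6 + m 4 ≤ 6755 / 10000 - 1 / 10 * (11 / 14 - t 4) := h.hZ2 6
  have hS := h.hS
  linarith

/-- the place `0` is low -/
theorem low0 (h : LPC e m t) (h0 : t 1 + t 4 ≤ 9 / 7) : False := by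
  have n1 : 9 / 7 ≤ t 2 + t 5 := by
    have := h.ex1 0 h0
    push Not at this
    exact this.le
  have n2 : 9 / 7 ≤ t 3 + t 6 := by
    have := h.ex2 0 h0
    push Not at this
    exact this.le
  have n5 : 9 / 7 ≤ t 6 + t 2 := by
    by_contra hc
    push Not at hc
    exact h.ex2 5 hc.le h0
  have n6 : 9 / 7 ≤ t 0 + t 3 := by
    by_contra hc
    push Not at hc
    exact h.ex1 6 hc.le h0
  rcases le_total (t 4 + t 0) (9 / 7) with h3 | h3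
  · -- the place `3` is low, the place `4` is high
    have n4 : 9 / 7 ≤ t 5 + t 1 := by
      have := h.ex1 3 h3
      push Not at this
      exact this.le
    exact h.two_low n4 n5 n6
  · rcases le_total (t 5 + t 1) (9 / 7) with h4 | h4
    · -- the place `4` is low
      have n1' : 9 / 7 ≤ t 2 + t 5 := n1
      exact (h.rot 4).two_low n1' n2 h3
    · exact h.one_low n1 n2 h3 h4

theorem absurd (h : LPC e m t) : False := by
  by_cases hh : ∀ k, 9 / 7 ≤ t (k + 1) + t (k + 4)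
  · exact h.none_low hh
  · push Not at hh
    obtain ⟨k, hk⟩ := hh
    refine (h.rot k).low0 ?_
    have e1 : (1 : Fin 7) + k = k + 1 := add_comm _ _
    have e2 : (4 : Fin 7) + k = k + 4 := add_comm _ _
    simp only [e1, e2]
    exact hk.le

end LPC

end Pool.Agent.H58.LP9
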