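import Pool.Agent.H81.CP.Z

/-!
MP_6a7a6f_gt, the level of `rad 3`: the smallest phase of a monopole in terms of the phases at the
opposite edge.
-/

set_option autoImplicit false

open Pool.Agent.H58.FL Pool.Agent.H59 Pool.Agent.H48.FR Pool.Agent.H58.FN Pool.Agent.H59.CPT
  Pool.Agent.H81.CP

namespace Pool.Agent.H58.QC

theorem cg {v0 v1 v2 v3 A B C A' B' C' : ℝ} (h : Ex v0 v1 v2 v3 A B C) (eA : A = A')
    (eB : B = B') (eC : C = C') : Ex v0 v1 v2 v3 A' B' C' := eA ▸ eB ▸ eC ▸ h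

/-- the mirror image which exchanges the last two areas -/
theorem mi {v0 v1 v2 v3 A B C : ℝ} (h : Ex v0 v1 v2 v3 A B C) : Ex v0 v2 v1 v3 A C B := by
  obtain ⟨d1, d2, d3, a1, a2, a3, a4, a5, a6, hf⟩ := h
  have e4 : A - -d2 + -d1 = A - d1 + d2 := by ring
  have e5 : C - -d1 + -d3 = C - d3 + d1 := by ring
  have e6 : B - -d3 + -d2 = B - d2 + d3 := by ring
  refine ⟨-d2, -d1, -d3, ?_, ?_, ?_, ?_, ?_, ?_, ?_⟩
  · rwa [abs_neg]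
  · rwa [abs_neg]
  · rwa [abs_neg]
  · rwa [e4]
  · rwa [e5]
  · rwa [e6]
  · rw [e4, e5, e6, ck_neg, ck_neg, ck_neg]
    linarith

/-! ## the vertices -/

theorem q1_0 : Ex 25 37 37 50 (-(17)) (28 / 5) (42 / 5) := by
  refine Ex.vert (-(7)) (13 / 2) (3 / 4) ?_ ?_ ?_ ?_ ?_ ?_ ?_ ?_ ?_ ?_ ?_ <;>
    norm_num [abs_le, ql]

theorem q1_1 : Ex 25 37 37 50 (-(17)) (11 / 2) (42 / 5) := by
  refine Ex.vert (-(7)) (13 / 2) 1 ?_ ?_ ?_ ?_ ?_ ?_ ?_ ?_ ?_ ?_ ?_ <;>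
    norm_num [abs_le, ql]

theorem q1_2 : Ex 25 37 37 50 (-(17)) (32 / 5) (38 / 5) := by
  refine Ex.vert (-(7)) (27 / 4) (1 / 4) ?_ ?_ ?_ ?_ ?_ ?_ ?_ ?_ ?_ ?_ ?_ <;>
    norm_num [abs_le, ql]

theorem q1_3 : Ex 25 37 37 50 (-(17)) (11 / 2) (38 / 5) := by
  refine Ex.vert (-(7)) (25 / 4) (1 / 2) ?_ ?_ ?_ ?_ ?_ ?_ ?_ ?_ ?_ ?_ ?_ <;>
    norm_num [abs_le, ql]

theorem q1_4 : Ex 25 37 37 50 (-(2261 / 125)) (836 / 125) (42 / 5) := by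
  refine Ex.vert (-(7)) 7 (3 / 4) ?_ ?_ ?_ ?_ ?_ ?_ ?_ ?_ ?_ ?_ ?_ <;>
    norm_num [abs_le, ql]

theorem q1_5 : Ex 25 37 37 50 (-(2261 / 125)) (11 / 2) (42 / 5) := by
  refine Ex.vert (-(7)) 7 1 ?_ ?_ ?_ ?_ ?_ ?_ ?_ ?_ ?_ ?_ ?_ <;>
    norm_num [abs_le, ql]

theorem q1_6 : Ex 25 37 37 50 (-(2261 / 125)) (936 / 125) (38 / 5) := by
  refine Ex.vert (-(7)) 7 0 ?_ ?_ ?_ ?_ ?_ ?_ ?_ ?_ ?_ ?_ ?_ <;>
    norm_num [abs_le, ql]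

theorem q1_7 : Ex 25 37 37 50 (-(2261 / 125)) (11 / 2) (38 / 5) := by
  refine Ex.vert (-(7)) (27 / 4) (3 / 4) ?_ ?_ ?_ ?_ ?_ ?_ ?_ ?_ ?_ ?_ ?_ <;>
    norm_num [abs_le, ql]

theorem q2_0 : Ex 29 34 36 50 (-(17)) (11 / 2) (42 / 5) := by
  refine Ex.vert (-(7)) 6 (3 / 4) ?_ ?_ ?_ ?_ ?_ ?_ ?_ ?_ ?_ ?_ ?_ <;>
    norm_num [abs_le, ql]

theorem q2_1 : Ex 29 34 36 50 (-(17)) (51 / 10) (42 / 5) := by
  refine Ex.vert (-(7)) (23 / 4) (3 / 4) ?_ ?_ ?_ ?_ ?_ ?_ ?_ ?_ ?_ ?_ ?_ <;>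
    norm_num [abs_le, ql]

theorem q2_2 : Ex 29 34 36 50 (-(17)) (11 / 2) (38 / 5) := by
  refine Ex.vert (-(7)) (23 / 4) (1 / 4) ?_ ?_ ?_ ?_ ?_ ?_ ?_ ?_ ?_ ?_ ?_ <;>
    norm_num [abs_le, ql]

theorem q2_3 : Ex 29 34 36 50 (-(17)) (51 / 10) (38 / 5) := by
  refine Ex.vert (-(7)) (11 / 2) (1 / 4) ?_ ?_ ?_ ?_ ?_ ?_ ?_ ?_ ?_ ?_ ?_ <;>
    norm_num [abs_le, ql]

theorem q2_4 : Ex 29 34 36 50 (-(2261 / 125)) (11 / 2) (42 / 5) := by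
  refine Ex.vert (-(7)) (25 / 4) (3 / 4) ?_ ?_ ?_ ?_ ?_ ?_ ?_ ?_ ?_ ?_ ?_ <;>
    norm_num [abs_le, ql]

theorem q2_5 : Ex 29 34 36 50 (-(2261 / 125)) (51 / 10) (42 / 5) := by
  refine Ex.vert (-(7)) 6 (3 / 4) ?_ ?_ ?_ ?_ ?_ ?_ ?_ ?_ ?_ ?_ ?_ <;>
    norm_num [abs_le, ql]

theorem q2_6 : Ex 29 34 36 50 (-(2261 / 125)) (11 / 2) (38 / 5) := by
  refine Ex.vert (-(7)) (25 / 4) (1 / 2) ?_ ?_ ?_ ?_ ?_ ?_ ?_ ?_ ?_ ?_ ?_ <;>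
    norm_num [abs_le, ql]

theorem q2_7 : Ex 29 34 36 50 (-(2261 / 125)) (51 / 10) (38 / 5) := by
  refine Ex.vert (-(7)) 6 (1 / 2) ?_ ?_ ?_ ?_ ?_ ?_ ?_ ?_ ?_ ?_ ?_ <;>
    norm_num [abs_le, ql]

theorem q3_0 : Ex 31 31 36 50 (-(17)) (51 / 10) (42 / 5) := by
  refine Ex.vert (-(7)) (11 / 2) (1 / 2) ?_ ?_ ?_ ?_ ?_ ?_ ?_ ?_ ?_ ?_ ?_ <;>
    norm_num [abs_le, ql]

theorem q3_1 : Ex 31 31 36 50 (-(17)) (9 / 2) (42 / 5) := by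
  refine Ex.vert (-(7)) (21 / 4) (3 / 4) ?_ ?_ ?_ ?_ ?_ ?_ ?_ ?_ ?_ ?_ ?_ <;>
    norm_num [abs_le, ql]

theorem q3_2 : Ex 31 31 36 50 (-(17)) (51 / 10) (38 / 5) := by
  refine Ex.vert (-(7)) (21 / 4) (1 / 4) ?_ ?_ ?_ ?_ ?_ ?_ ?_ ?_ ?_ ?_ ?_ <;>
    norm_num [abs_le, ql]

theorem q3_3 : Ex 31 31 36 50 (-(17)) (9 / 2) (38 / 5) := by
  refine Ex.vert (-(7)) (19 / 4) (1 / 4) ?_ ?_ ?_ ?_ ?_ ?_ ?_ ?_ ?_ ?_ ?_ <;>
    norm_num [abs_le, ql]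

theorem q3_4 : Ex 31 31 36 50 (-(2261 / 125)) (51 / 10) (42 / 5) := by
  refine Ex.vert (-(7)) (23 / 4) (3 / 4) ?_ ?_ ?_ ?_ ?_ ?_ ?_ ?_ ?_ ?_ ?_ <;>
    norm_num [abs_le, ql]

theorem q3_5 : Ex 31 31 36 50 (-(2261 / 125)) (9 / 2) (42 / 5) := by
  refine Ex.vert (-(7)) (21 / 4) (3 / 4) ?_ ?_ ?_ ?_ ?_ ?_ ?_ ?_ ?_ ?_ ?_ <;>
    norm_num [abs_le, ql]

theorem q3_6 : Ex 31 31 36 50 (-(2261 / 125)) (51 / 10) (38 / 5) := by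
  refine Ex.vert (-(7)) (11 / 2) (1 / 4) ?_ ?_ ?_ ?_ ?_ ?_ ?_ ?_ ?_ ?_ ?_ <;>
    norm_num [abs_le, ql]

theorem q3_7 : Ex 31 31 36 50 (-(2261 / 125)) (9 / 2) (38 / 5) := by
  refine Ex.vert (-(7)) (21 / 4) (1 / 2) ?_ ?_ ?_ ?_ ?_ ?_ ?_ ?_ ?_ ?_ ?_ <;>
    norm_num [abs_le, ql]

theorem q4_0 : Ex 34 28 36 50 (-(17)) (9 / 2) (42 / 5) := by
  refine Ex.vert (-(7)) (19 / 4) (1 / 2) ?_ ?_ ?_ ?_ ?_ ?_ ?_ ?_ ?_ ?_ ?_ <;>
    norm_num [abs_le, ql]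

theorem q4_1 : Ex 34 28 36 50 (-(17)) 3 (42 / 5) := by
  refine Ex.vert (-(7)) 4 (3 / 4) ?_ ?_ ?_ ?_ ?_ ?_ ?_ ?_ ?_ ?_ ?_ <;>
    norm_num [abs_le, ql]

theorem q4_2 : Ex 34 28 36 50 (-(17)) (9 / 2) 7 := by
  refine Ex.vert (-(7)) (17 / 4) 0 ?_ ?_ ?_ ?_ ?_ ?_ ?_ ?_ ?_ ?_ ?_ <;>
    norm_num [abs_le, ql]

theorem q4_3 : Ex 34 28 36 50 (-(17)) 3 7 := by
  refine Ex.vert (-(7)) (7 / 2) (1 / 4) ?_ ?_ ?_ ?_ ?_ ?_ ?_ ?_ ?_ ?_ ?_ <;>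
    norm_num [abs_le, ql]

theorem q4_4 : Ex 34 28 36 50 (-(2261 / 125)) (9 / 2) (42 / 5) := by
  refine Ex.vert (-(7)) (19 / 4) (1 / 2) ?_ ?_ ?_ ?_ ?_ ?_ ?_ ?_ ?_ ?_ ?_ <;>
    norm_num [abs_le, ql]

theorem q4_5 : Ex 34 28 36 50 (-(2261 / 125)) 3 (42 / 5) := by
  refine Ex.vert (-(7)) (17 / 4) (3 / 4) ?_ ?_ ?_ ?_ ?_ ?_ ?_ ?_ ?_ ?_ ?_ <;>
    norm_num [abs_le, ql]

theorem q4_6 : Ex 34 28 36 50 (-(2261 / 125)) (9 / 2) 7 := by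
  refine Ex.vert (-(7)) (9 / 2) 0 ?_ ?_ ?_ ?_ ?_ ?_ ?_ ?_ ?_ ?_ ?_ <;>
    norm_num [abs_le, ql]

theorem q4_7 : Ex 34 28 36 50 (-(2261 / 125)) 3 7 := by
  refine Ex.vert (-(7)) (17 / 4) (1 / 2) ?_ ?_ ?_ ?_ ?_ ?_ ?_ ?_ ?_ ?_ ?_ <;>
    norm_num [abs_le, ql]

theorem q56_0 : Ex 29 33 36 50 (-(17)) (38 / 5) (38 / 5) := by
  refine Ex.vert (-(7)) 7 0 ?_ ?_ ?_ ?_ ?_ ?_ ?_ ?_ ?_ ?_ ?_ <;>
    norm_num [abs_le, ql]

theorem q56_1 : Ex 29 33 36 50 (-(17)) (9 / 2) (38 / 5) := by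
  refine Ex.vert (-(7)) (21 / 4) (1 / 2) ?_ ?_ ?_ ?_ ?_ ?_ ?_ ?_ ?_ ?_ ?_ <;>
    norm_num [abs_le, ql]

theorem q56_2 : Ex 29 33 36 50 (-(17)) 7 7 := by
  refine Ex.vert (-(7)) (25 / 4) (-(1 / 4)) ?_ ?_ ?_ ?_ ?_ ?_ ?_ ?_ ?_ ?_ ?_ <;>
    norm_num [abs_le, ql]

theorem q56_3 : Ex 29 33 36 50 (-(17)) (9 / 2) 7 := by
  refine Ex.vert (-(7)) 5 (1 / 4) ?_ ?_ ?_ ?_ ?_ ?_ ?_ ?_ ?_ ?_ ?_ <;>
    norm_num [abs_le, ql]

theorem q56_4 : Ex 29 33 36 50 (-(2261 / 125)) (38 / 5) (38 / 5) := by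
  refine Ex.vert (-(7)) 7 0 ?_ ?_ ?_ ?_ ?_ ?_ ?_ ?_ ?_ ?_ ?_ <;>
    norm_num [abs_le, ql]

theorem q56_5 : Ex 29 33 36 50 (-(2261 / 125)) (9 / 2) (38 / 5) := by
  refine Ex.vert (-(7)) (11 / 2) (1 / 2) ?_ ?_ ?_ ?_ ?_ ?_ ?_ ?_ ?_ ?_ ?_ <;>
    norm_num [abs_le, ql]

theorem q56_6 : Ex 29 33 36 50 (-(2261 / 125)) 7 7 := by
  refine Ex.vert (-(7)) (27 / 4) 0 ?_ ?_ ?_ ?_ ?_ ?_ ?_ ?_ ?_ ?_ ?_ <;>
    norm_num [abs_le, ql]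

theorem q56_7 : Ex 29 33 36 50 (-(2261 / 125)) (9 / 2) 7 := by
  refine Ex.vert (-(7)) (21 / 4) (1 / 4) ?_ ?_ ?_ ?_ ?_ ?_ ?_ ?_ ?_ ?_ ?_ <;>
    norm_num [abs_le, ql]

theorem q7_0 : Ex 32 32 34 50 (-(17)) 7 7 := by
  refine Ex.vert (-(27 / 4)) (25 / 4) (-(1 / 4)) ?_ ?_ ?_ ?_ ?_ ?_ ?_ ?_ ?_ ?_ ?_ <;>
    norm_num [abs_le, ql]

theorem q7_1 : Ex 32 32 34 50 (-(17)) 5 7 := by
  refine Ex.vert (-(7)) 5 0 ?_ ?_ ?_ ?_ ?_ ?_ ?_ ?_ ?_ ?_ ?_ <;>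
    norm_num [abs_le, ql]

theorem q7_2 : Ex 32 32 34 50 (-(17)) 6 6 := by
  refine Ex.vert (-(6)) (23 / 4) 0 ?_ ?_ ?_ ?_ ?_ ?_ ?_ ?_ ?_ ?_ ?_ <;>
    norm_num [abs_le, ql]

theorem q7_3 : Ex 32 32 34 50 (-(17)) 5 6 := by
  refine Ex.vert (-(6)) (21 / 4) 0 ?_ ?_ ?_ ?_ ?_ ?_ ?_ ?_ ?_ ?_ ?_ <;>
    norm_num [abs_le, ql]

theorem q7_4 : Ex 32 32 34 50 (-(2261 / 125)) 7 7 := by
  refine Ex.vert (-(7)) (13 / 2) (-(1 / 4)) ?_ ?_ ?_ ?_ ?_ ?_ ?_ ?_ ?_ ?_ ?_ <;>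
    norm_num [abs_le, ql]

theorem q7_5 : Ex 32 32 34 50 (-(2261 / 125)) 5 7 := by
  refine Ex.vert (-(7)) (21 / 4) 0 ?_ ?_ ?_ ?_ ?_ ?_ ?_ ?_ ?_ ?_ ?_ <;>
    norm_num [abs_le, ql]

theorem q7_6 : Ex 32 32 34 50 (-(2261 / 125)) 6 6 := by
  refine Ex.vert (-(25 / 4)) 6 0 ?_ ?_ ?_ ?_ ?_ ?_ ?_ ?_ ?_ ?_ ?_ <;>
    norm_num [abs_le, ql]

theorem q7_7 : Ex 32 32 34 50 (-(2261 / 125)) 5 6 := by
  refine Ex.vert (-(25 / 4)) (21 / 4) 0 ?_ ?_ ?_ ?_ ?_ ?_ ?_ ?_ ?_ ?_ ?_ <;>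
    norm_num [abs_le, ql]

theorem q8_0 : Ex 37 25 37 50 (-(17)) 5 7 := by
  refine Ex.vert (-(7)) (17 / 4) (-(1 / 4)) ?_ ?_ ?_ ?_ ?_ ?_ ?_ ?_ ?_ ?_ ?_ <;>
    norm_num [abs_le, ql]

theorem q8_1 : Ex 37 25 37 50 (-(17)) 3 7 := by
  refine Ex.vert (-(7)) 3 0 ?_ ?_ ?_ ?_ ?_ ?_ ?_ ?_ ?_ ?_ ?_ <;>
    norm_num [abs_le, ql]

theorem q8_2 : Ex 37 25 37 50 (-(17)) 5 6 := by
  refine Ex.vert (-(13 / 2)) 4 (-(1 / 2)) ?_ ?_ ?_ ?_ ?_ ?_ ?_ ?_ ?_ ?_ ?_ <;>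
    norm_num [abs_le, ql]

theorem q8_3 : Ex 37 25 37 50 (-(17)) 4 6 := by
  refine Ex.vert (-(25 / 4)) (15 / 4) (-(1 / 4)) ?_ ?_ ?_ ?_ ?_ ?_ ?_ ?_ ?_ ?_ ?_ <;>
    norm_num [abs_le, ql]

theorem q8_4 : Ex 37 25 37 50 (-(2261 / 125)) 5 7 := by
  refine Ex.vert (-(7)) (17 / 4) (-(1 / 4)) ?_ ?_ ?_ ?_ ?_ ?_ ?_ ?_ ?_ ?_ ?_ <;>
    norm_num [abs_le, ql]

theorem q8_5 : Ex 37 25 37 50 (-(2261 / 125)) 3 7 := by
  refine Ex.vert (-(7)) (17 / 4) (1 / 2) ?_ ?_ ?_ ?_ ?_ ?_ ?_ ?_ ?_ ?_ ?_ <;>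
    norm_num [abs_le, ql]

theorem q8_6 : Ex 37 25 37 50 (-(2261 / 125)) 5 6 := by
  refine Ex.vert (-(7)) (17 / 4) (-(1 / 2)) ?_ ?_ ?_ ?_ ?_ ?_ ?_ ?_ ?_ ?_ ?_ <;>
    norm_num [abs_le, ql]

theorem q8_7 : Ex 37 25 37 50 (-(2261 / 125)) 4 6 := by
  refine Ex.vert (-(7)) (17 / 4) (-(1 / 4)) ?_ ?_ ?_ ?_ ?_ ?_ ?_ ?_ ?_ ?_ ?_ <;>
    norm_num [abs_le, ql]

theorem q9_0 : Ex 36 30 33 50 (-(17)) 6 6 := by
  refine Ex.vert (-(6)) (21 / 4) (-(1 / 4)) ?_ ?_ ?_ ?_ ?_ ?_ ?_ ?_ ?_ ?_ ?_ <;>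
    norm_num [abs_le, ql]

theorem q9_1 : Ex 36 30 33 50 (-(17)) 4 6 := by
  refine Ex.vert (-(23 / 4)) (17 / 4) (1 / 4) ?_ ?_ ?_ ?_ ?_ ?_ ?_ ?_ ?_ ?_ ?_ <;>
    norm_num [abs_le, ql]

theorem q9_2 : Ex 36 30 33 50 (-(17)) 5 5 := by
  refine Ex.vert (-(21 / 4)) (19 / 4) (-(1 / 4)) ?_ ?_ ?_ ?_ ?_ ?_ ?_ ?_ ?_ ?_ ?_ <;>
    norm_num [abs_le, ql]

theorem q9_3 : Ex 36 30 33 50 (-(2261 / 125)) 6 6 := by
  refine Ex.vert (-(6)) (11 / 2) (-(1 / 4)) ?_ ?_ ?_ ?_ ?_ ?_ ?_ ?_ ?_ ?_ ?_ <;>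
    norm_num [abs_le, ql]

theorem q9_4 : Ex 36 30 33 50 (-(2261 / 125)) 4 6 := by
  refine Ex.vert (-(13 / 2)) (19 / 4) 0 ?_ ?_ ?_ ?_ ?_ ?_ ?_ ?_ ?_ ?_ ?_ <;>
    norm_num [abs_le, ql]

theorem q9_5 : Ex 36 30 33 50 (-(2261 / 125)) 5 5 := by
  refine Ex.vert (-(6)) (21 / 4) (-(1 / 4)) ?_ ?_ ?_ ?_ ?_ ?_ ?_ ?_ ?_ ?_ ?_ <;>
    norm_num [abs_le, ql]

theorem q10_0 : Ex 38 29 34 50 (-(17)) 5 5 := by
  refine Ex.vert (-(21 / 4)) (19 / 4) (-(1 / 4)) ?_ ?_ ?_ ?_ ?_ ?_ ?_ ?_ ?_ ?_ ?_ <;>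
    norm_num [abs_le, ql]

theorem q10_1 : Ex 38 29 34 50 (-(17)) 3 7 := by
  refine Ex.vert (-(13 / 2)) (7 / 2) (1 / 4) ?_ ?_ ?_ ?_ ?_ ?_ ?_ ?_ ?_ ?_ ?_ <;>
    norm_num [abs_le, ql]

theorem q10_2 : Ex 38 29 34 50 (-(2261 / 125)) 5 5 := by
  refine Ex.vert (-(6)) (26 / 5) (-(1 / 5)) ?_ ?_ ?_ ?_ ?_ ?_ ?_ ?_ ?_ ?_ ?_ <;>
    norm_num [abs_le, ql]

theorem q10_3 : Ex 38 29 34 50 (-(2261 / 125)) 3 7 := by
  refine Ex.vert (-(7)) (41 / 10) (2 / 5) ?_ ?_ ?_ ?_ ?_ ?_ ?_ ?_ ?_ ?_ ?_ <;>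
    norm_num [abs_le, ql]

theorem q10_4 : Ex 38 29 34 50 (-(17)) (851 / 279) (851 / 279) := by
  refine Ex.vert (-(11 / 2)) (9 / 2) (-(1 / 4)) ?_ ?_ ?_ ?_ ?_ ?_ ?_ ?_ ?_ ?_ ?_ <;>
    norm_num [abs_le, ql]

theorem q10_5 : Ex 38 29 34 50 (-(17)) 3 (865 / 279) := by
  refine Ex.vert (-(11 / 2)) (9 / 2) (-(1 / 4)) ?_ ?_ ?_ ?_ ?_ ?_ ?_ ?_ ?_ ?_ ?_ <;>
    norm_num [abs_le, ql]

/-! ## the boxes -/

/-- a graded box -/
theorem gbox {v0 v1 v2 v3 : ℝ} (g0 : 0 ≤ v0) (g1 : 0 ≤ v1) (g2 : 0 ≤ v2) (g3 : 0 ≤ v3)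
    (b0 b1 l0 l1 l2 h0 h2 : ℝ) (hb : b0 < b1)
    (V1 : Ex v0 v1 v2 v3 (-17) (14 - (l0 + l1 * 3 + l2 * b0)) (14 - b0))
    (V2 : Ex v0 v1 v2 v3 (-17) (14 - (h0 + h2 * b0)) (14 - b0))
    (V3 : Ex v0 v1 v2 v3 (-17) (14 - (l0 + l1 * 3 + l2 * b1)) (14 - b1))
    (V4 : Ex v0 v1 v2 v3 (-17) (14 - (h0 + h2 * b1)) (14 - b1))
    (W1 : Ex v0 v1 v2 v3 (-(2261 / 125)) (14 - (l0 + l1 * (511 / 125) + l2 * b0)) (14 - b0))
    (W2 : Ex v0 v1 v2 v3 (-(2261 / 125)) (14 - (h0 + h2 * b0)) (14 - b0))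
    (W3 : Ex v0 v1 v2 v3 (-(2261 / 125)) (14 - (l0 + l1 * (511 / 125) + l2 * b1)) (14 - b1))
    (W4 : Ex v0 v1 v2 v3 (-(2261 / 125)) (14 - (h0 + h2 * b1)) (14 - b1))
    (e a b : ℝ) (he : 3 ≤ e) (he' : e ≤ 511 / 125) (hb0 : b0 ≤ b) (hb1 : b ≤ b1)
    (hl : l0 + l1 * e + l2 * b ≤ a) (hh : a ≤ h0 + h2 * b)
    (hlt : l0 + l1 * e + l2 * b < h0 + h2 * b) :
    Ex v0 v1 v2 v3 (-14 - e) (14 - a) (14 - b) := by
  have c1 : Ex v0 v1 v2 v3 (-14 - e) (14 - (l0 + l1 * e + l2 * b0)) (14 - b0) :=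
    Ex.line g0 g1 g2 g3 V1 W1 3 (511 / 125) e he he' (by norm_num) (by ring) (by ring) (by ring)
  have c2 : Ex v0 v1 v2 v3 (-14 - e) (14 - (h0 + h2 * b0)) (14 - b0) :=
    Ex.line g0 g1 g2 g3 V2 W2 3 (511 / 125) e he he' (by norm_num) (by ring) (by ring) (by ring)
  have c3 : Ex v0 v1 v2 v3 (-14 - e) (14 - (l0 + l1 * e + l2 * b1)) (14 - b1) :=
    Ex.line g0 g1 g2 g3 V3 W3 3 (511 / 125) e he he' (by norm_num) (by ring) (by ring) (by ring)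
  have c4 : Ex v0 v1 v2 v3 (-14 - e) (14 - (h0 + h2 * b1)) (14 - b1) :=
    Ex.line g0 g1 g2 g3 V4 W4 3 (511 / 125) e he he' (by norm_num) (by ring) (by ring) (by ring)
  have d1 : Ex v0 v1 v2 v3 (-14 - e) (14 - (l0 + l1 * e + l2 * b)) (14 - b) :=
    Ex.line g0 g1 g2 g3 c1 c3 b0 b1 b hb0 hb1 hb (by ring) (by ring) (by ring)
  have d2 : Ex v0 v1 v2 v3 (-14 - e) (14 - (h0 + h2 * b)) (14 - b) :=
    Ex.line g0 g1 g2 g3 c2 c4 b0 b1 b hb0 hb1 hb (by ring) (by ring) (by ring)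
  exact Ex.line g0 g1 g2 g3 d1 d2 (l0 + l1 * e + l2 * b) (h0 + h2 * b) a hl hh hlt (by ring)
    (by ring) (by ring)

/-- the areas are impossible for some weights -/
def Im (A B C : ℝ) : Prop := ∃ v0 v1 v2 v3 : ℝ, 0 < v0 ∧ 0 ≤ v1 ∧ 0 ≤ v2 ∧ 0 ≤ v3 ∧
  Ex v0 v1 v2 v3 A B C

theorem q1b (e a b : ℝ) (he : 3 ≤ e) (he' : e ≤ 511 / 125) (hb0 : 28 / 5 ≤ b) (hb1 : b ≤ 32 / 5)
    (hl : 17 + (-1) * e + (-1) * b ≤ a) (hh : a ≤ 17 / 2 + 0 * b)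
    (hlt : 17 + (-1) * e + (-1) * b < 17 / 2 + 0 * b) : Im (-14 - e) (14 - a) (14 - b) :=
  ⟨25, 37, 37, 50, by norm_num, by norm_num, by norm_num, by norm_num,
    gbox (by norm_num) (by norm_num) (by norm_num) (by norm_num) (28 / 5) (32 / 5) (17) (-1) (-1) (17 / 2) 0
      (by norm_num)
      (cg q1_0 (by norm_num) (by norm_num) (by norm_num))
      (cg q1_1 (by norm_num) (by norm_num) (by norm_num))
      (cg q1_2 (by norm_num) (by norm_num) (by norm_num))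
      (cg q1_3 (by norm_num) (by norm_num) (by norm_num))
      (cg q1_4 (by norm_num) (by norm_num) (by norm_num))
      (cg q1_5 (by norm_num) (by norm_num) (by norm_num))
      (cg q1_6 (by norm_num) (by norm_num) (by norm_num))
      (cg q1_7 (by norm_num) (by norm_num) (by norm_num))
      e a b he he' hb0 hb1 hl hh hlt⟩

theorem q2b (e a b : ℝ) (he : 3 ≤ e) (he' : e ≤ 511 / 125) (hb0 : 28 / 5 ≤ b) (hb1 : b ≤ 32 / 5)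
    (hl : 17 / 2 + 0 * e + 0 * b ≤ a) (hh : a ≤ 89 / 10 + 0 * b)
    (hlt : 17 / 2 + 0 * e + 0 * b < 89 / 10 + 0 * b) : Im (-14 - e) (14 - a) (14 - b) :=
  ⟨29, 34, 36, 50, by norm_num, by norm_num, by norm_num, by norm_num,
    gbox (by norm_num) (by norm_num) (by norm_num) (by norm_num) (28 / 5) (32 / 5) (17 / 2) 0 0 (89 / 10) 0
      (by norm_num)
      (cg q2_0 (by norm_num) (by norm_num) (by norm_num))
      (cg q2_1 (by norm_num) (by norm_num) (by norm_num))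
      (cg q2_2 (by norm_num) (by norm_num) (by norm_num))
      (cg q2_3 (by norm_num) (by norm_num) (by norm_num))
      (cg q2_4 (by norm_num) (by norm_num) (by norm_num))
      (cg q2_5 (by norm_num) (by norm_num) (by norm_num))
      (cg q2_6 (by norm_num) (by norm_num) (by norm_num))
      (cg q2_7 (by norm_num) (by norm_num) (by norm_num))
      e a b he he' hb0 hb1 hl hh hlt⟩

theorem q3b (e a b : ℝ) (he : 3 ≤ e) (he' : e ≤ 511 / 125) (hb0 : 28 / 5 ≤ b) (hb1 : b ≤ 32 / 5)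
    (hl : 89 / 10 + 0 * e + 0 * b ≤ a) (hh : a ≤ 19 / 2 + 0 * b)
    (hlt : 89 / 10 + 0 * e + 0 * b < 19 / 2 + 0 * b) : Im (-14 - e) (14 - a) (14 - b) :=
  ⟨31, 31, 36, 50, by norm_num, by norm_num, by norm_num, by norm_num,
    gbox (by norm_num) (by norm_num) (by norm_num) (by norm_num) (28 / 5) (32 / 5) (89 / 10) 0 0 (19 / 2) 0
      (by norm_num)
      (cg q3_0 (by norm_num) (by norm_num) (by norm_num))
      (cg q3_1 (by norm_num) (by norm_num) (by norm_num))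
      (cg q3_2 (by norm_num) (by norm_num) (by norm_num))
      (cg q3_3 (by norm_num) (by norm_num) (by norm_num))
      (cg q3_4 (by norm_num) (by norm_num) (by norm_num))
      (cg q3_5 (by norm_num) (by norm_num) (by norm_num))
      (cg q3_6 (by norm_num) (by norm_num) (by norm_num))
      (cg q3_7 (by norm_num) (by norm_num) (by norm_num))
      e a b he he' hb0 hb1 hl hh hlt⟩

theorem q4b (e a b : ℝ) (he : 3 ≤ e) (he' : e ≤ 511 / 125) (hb0 : 28 / 5 ≤ b) (hb1 : b ≤ 7)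
    (hl : 19 / 2 + 0 * e + 0 * b ≤ a) (hh : a ≤ 11 + 0 * b)
    (hlt : 19 / 2 + 0 * e + 0 * b < 11 + 0 * b) : Im (-14 - e) (14 - a) (14 - b) :=
  ⟨34, 28, 36, 50, by norm_num, by norm_num, by norm_num, by norm_num,
    gbox (by norm_num) (by norm_num) (by norm_num) (by norm_num) (28 / 5) (7) (19 / 2) 0 0 (11) 0
      (by norm_num)
      (cg q4_0 (by norm_num) (by norm_num) (by norm_num))
      (cg q4_1 (by norm_num) (by norm_num) (by norm_num))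
      (cg q4_2 (by norm_num) (by norm_num) (by norm_num))
      (cg q4_3 (by norm_num) (by norm_num) (by norm_num))
      (cg q4_4 (by norm_num) (by norm_num) (by norm_num))
      (cg q4_5 (by norm_num) (by norm_num) (by norm_num))
      (cg q4_6 (by norm_num) (by norm_num) (by norm_num))
      (cg q4_7 (by norm_num) (by norm_num) (by norm_num))
      e a b he he' hb0 hb1 hl hh hlt⟩

theorem q56b (e a b : ℝ) (he : 3 ≤ e) (he' : e ≤ 511 / 125) (hb0 : 32 / 5 ≤ b) (hb1 : b ≤ 7)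
    (hl : 0 + 0 * e + 1 * b ≤ a) (hh : a ≤ 19 / 2 + 0 * b)
    (hlt : 0 + 0 * e + 1 * b < 19 / 2 + 0 * b) : Im (-14 - e) (14 - a) (14 - b) :=
  ⟨29, 33, 36, 50, by norm_num, by norm_num, by norm_num, by norm_num,
    gbox (by norm_num) (by norm_num) (by norm_num) (by norm_num) (32 / 5) (7) (0) 0 1 (19 / 2) 0
      (by norm_num)
      (cg q56_0 (by norm_num) (by norm_num) (by norm_num))
      (cg q56_1 (by norm_num) (by norm_num) (by norm_num))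
      (cg q56_2 (by norm_num) (by norm_num) (by norm_num))
      (cg q56_3 (by norm_num) (by norm_num) (by norm_num))
      (cg q56_4 (by norm_num) (by norm_num) (by norm_num))
      (cg q56_5 (by norm_num) (by norm_num) (by norm_num))
      (cg q56_6 (by norm_num) (by norm_num) (by norm_num))
      (cg q56_7 (by norm_num) (by norm_num) (by norm_num))
      e a b he he' hb0 hb1 hl hh hlt⟩

theorem q7b (e a b : ℝ) (he : 3 ≤ e) (he' : e ≤ 511 / 125) (hb0 : 7 ≤ b) (hb1 : b ≤ 8)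
    (hl : 0 + 0 * e + 1 * b ≤ a) (hh : a ≤ 9 + 0 * b)
    (hlt : 0 + 0 * e + 1 * b < 9 + 0 * b) : Im (-14 - e) (14 - a) (14 - b) :=
  ⟨32, 32, 34, 50, by norm_num, by norm_num, by norm_num, by norm_num,
    gbox (by norm_num) (by norm_num) (by norm_num) (by norm_num) (7) (8) (0) 0 1 (9) 0
      (by norm_num)
      (cg q7_0 (by norm_num) (by norm_num) (by norm_num))
      (cg q7_1 (by norm_num) (by norm_num) (by norm_num))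
      (cg q7_2 (by norm_num) (by norm_num) (by norm_num))
      (cg q7_3 (by norm_num) (by norm_num) (by norm_num))
      (cg q7_4 (by norm_num) (by norm_num) (by norm_num))
      (cg q7_5 (by norm_num) (by norm_num) (by norm_num))
      (cg q7_6 (by norm_num) (by norm_num) (by norm_num))
      (cg q7_7 (by norm_num) (by norm_num) (by norm_num))
      e a b he he' hb0 hb1 hl hh hlt⟩

theorem q8b (e a b : ℝ) (he : 3 ≤ e) (he' : e ≤ 511 / 125) (hb0 : 7 ≤ b) (hb1 : b ≤ 8)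
    (hl : 9 + 0 * e + 0 * b ≤ a) (hh : a ≤ 18 + (-1) * b)
    (hlt : 9 + 0 * e + 0 * b < 18 + (-1) * b) : Im (-14 - e) (14 - a) (14 - b) :=
  ⟨37, 25, 37, 50, by norm_num, by norm_num, by norm_num, by norm_num,
    gbox (by norm_num) (by norm_num) (by norm_num) (by norm_num) (7) (8) (9) 0 0 (18) (-1)
      (by norm_num)
      (cg q8_0 (by norm_num) (by norm_num) (by norm_num))
      (cg q8_1 (by norm_num) (by norm_num) (by norm_num))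
      (cg q8_2 (by norm_num) (by norm_num) (by norm_num))
      (cg q8_3 (by norm_num) (by norm_num) (by norm_num))
      (cg q8_4 (by norm_num) (by norm_num) (by norm_num))
      (cg q8_5 (by norm_num) (by norm_num) (by norm_num))
      (cg q8_6 (by norm_num) (by norm_num) (by norm_num))
      (cg q8_7 (by norm_num) (by norm_num) (by norm_num))
      e a b he he' hb0 hb1 hl hh hlt⟩

theorem q9b (e a b : ℝ) (he : 3 ≤ e) (he' : e ≤ 511 / 125) (hb0 : 8 ≤ b) (hb1 : b ≤ 9)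
    (hl : 0 + 0 * e + 1 * b ≤ a) (hh : a ≤ 18 + (-1) * b)
    (hlt : 0 + 0 * e + 1 * b < 18 + (-1) * b) : Im (-14 - e) (14 - a) (14 - b) :=
  ⟨36, 30, 33, 50, by norm_num, by norm_num, by norm_num, by norm_num,
    gbox (by norm_num) (by norm_num) (by norm_num) (by norm_num) (8) (9) (0) 0 1 (18) (-1)
      (by norm_num)
      (cg q9_0 (by norm_num) (by norm_num) (by norm_num))
      (cg q9_1 (by norm_num) (by norm_num) (by norm_num))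
      (cg q9_2 (by norm_num) (by norm_num) (by norm_num))
      (cg q9_2 (by norm_num) (by norm_num) (by norm_num))
      (cg q9_3 (by norm_num) (by norm_num) (by norm_num))
      (cg q9_4 (by norm_num) (by norm_num) (by norm_num))
      (cg q9_5 (by norm_num) (by norm_num) (by norm_num))
      (cg q9_5 (by norm_num) (by norm_num) (by norm_num))
      e a b he he' hb0 hb1 hl hh hlt⟩

theorem q10b (e a b : ℝ) (he : 3 ≤ e) (hs : 18 ≤ a + b) (hab : b ≤ a) (ha : a ≤ 11)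
    (he' : e < 511 / 125 - 279 / 1000 * (a + b - 18)) : Im (-14 - e) (14 - a) (14 - b) := by
  obtain ⟨s, hs1⟩ : ∃ s, s = a + b := ⟨_, rfl⟩
  have eb : b = s - a := by linarith
  subst eb
  have hs2 : s ≤ 6110 / 279 := by linarith
  have hs0 : 18 ≤ s := by linarith
  have g0 : (0 : ℝ) ≤ 38 := by norm_num
  have g1 : (0 : ℝ) ≤ 29 := by norm_num
  have g2 : (0 : ℝ) ≤ 34 := by norm_num
  have g3 : (0 : ℝ) ≤ 50 := by norm_num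
  have hlt : (18 : ℝ) < 6110 / 279 := by norm_num
  have c1 : Ex 38 29 34 50 (-17) (14 - s / 2) (14 - s / 2) :=
    Ex.line g0 g1 g2 g3 q10_0 q10_4 18 (6110 / 279) s hs0 hs2 hlt (by ring) (by ring) (by ring)
  have c2 : Ex 38 29 34 50 (-17) 3 (25 - s) :=
    Ex.line g0 g1 g2 g3 q10_1 q10_5 18 (6110 / 279) s hs0 hs2 hlt (by ring) (by ring) (by ring)
  have c3 : Ex 38 29 34 50 (-14 - (511 / 125 - 279 / 1000 * (s - 18))) (14 - s / 2)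
      (14 - s / 2) :=
    Ex.line g0 g1 g2 g3 q10_2 q10_4 18 (6110 / 279) s hs0 hs2 hlt (by ring) (by ring) (by ring)
  have c4 : Ex 38 29 34 50 (-14 - (511 / 125 - 279 / 1000 * (s - 18))) 3 (25 - s) :=
    Ex.line g0 g1 g2 g3 q10_3 q10_5 18 (6110 / 279) s hs0 hs2 hlt (by ring) (by ring) (by ring)
  have k1 : s / 2 ≤ a := by linarith
  have k2 : s / 2 < 11 := by linarith
  have d1 : Ex 38 29 34 50 (-17) (14 - a) (14 - (s - a)) :=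
    Ex.line g0 g1 g2 g3 c1 c2 (s / 2) 11 a k1 ha k2 (by ring) (by ring) (by ring)
  have d2 : Ex 38 29 34 50 (-14 - (511 / 125 - 279 / 1000 * (s - 18))) (14 - a)
      (14 - (s - a)) :=
    Ex.line g0 g1 g2 g3 c3 c4 (s / 2) 11 a k1 ha k2 (by ring) (by ring) (by ring)
  have he2 : e < 511 / 125 - 279 / 1000 * (s - 18) := by linarith
  exact ⟨38, 29, 34, 50, by norm_num, g1, g2, g3,
    Ex.line g0 g1 g2 g3 d1 d2 3 (511 / 125 - 279 / 1000 * (s - 18)) e he he2.le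
      (by linarith) (by ring) (by ring) (by ring)⟩

/-- all areas with `b ≤ a` -/
theorem im1 (e a b : ℝ) (he : 3 ≤ e) (he' : e ≤ 511 / 125) (hb : 28 / 5 ≤ b) (hab : b ≤ a)
    (ha : a ≤ 11) (hs : a + b ≤ 18) (hf : 17 ≤ e + a + b) : Im (-14 - e) (14 - a) (14 - b) := by
  rcases le_total b 7 with h7 | h7
  · rcases le_total a (19 / 2) with h1 | h1
    · rcases le_total b (32 / 5) with h2 | h2
      · rcases le_total a (17 / 2) with h3 | h3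
        · exact q1b e a b he he' hb h2 (by linarith) (by linarith) (by linarith)
        · rcases le_total a (89 / 10) with h4 | h4
          · exact q2b e a b he he' hb h2 (by linarith) (by linarith) (by linarith)
          · exact q3b e a b he he' hb h2 (by linarith) (by linarith) (by linarith)
      · exact q56b e a b he he' h2 h7 (by linarith) (by linarith) (by linarith)
    · exact q4b e a b he he' hb h7 (by linarith) (by linarith) (by linarith)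
  · rcases le_total b 8 with h8 | h8
    · rcases le_total a 9 with h1 | h1
      · exact q7b e a b he he' h7 h8 (by linarith) (by linarith) (by linarith)
      · exact q8b e a b he he' h7 h8 (by linarith) (by linarith) (by linarith)
    · rcases lt_or_ge b 9 with h9 | h9
      · exact q9b e a b he he' h8 h9.le (by linarith) (by linarith) (by linarith)
      · have eb : b = 9 := by linarith
        have ea : a = 9 := by linarith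
        subst eb ea
        exact ⟨36, 30, 33, 50, by norm_num, by norm_num, by norm_num, by norm_num,
          Ex.line (by norm_num) (by norm_num) (by norm_num) (by norm_num) q9_2 q9_5 3 (511 / 125)
            e he he' (by norm_num) (by ring) (by ring) (by ring)⟩

theorem im2 (e a b : ℝ) (he : 3 ≤ e) (hb : 28 / 5 ≤ b) (ha' : 28 / 5 ≤ a) (ha : a ≤ 11)
    (hb' : b ≤ 11) (hf : 17 ≤ e + a + b)
    (h : (a + b ≤ 18 ∧ e < 511 / 125) ∨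
      (18 ≤ a + b ∧ e < 511 / 125 - 279 / 1000 * (a + b - 18))) :
    Im (-14 - e) (14 - a) (14 - b) := by
  rcases le_total b a with hab | hab
  · rcases h with ⟨h1, h2⟩ | ⟨h1, h2⟩
    · exact im1 e a b he h2.le hb hab ha h1 hf
    · exact q10b e a b he h1 hab ha h2
  · have key : Im (-14 - e) (14 - b) (14 - a) := by
      rcases h with ⟨h1, h2⟩ | ⟨h1, h2⟩
      · exact im1 e b a he h2.le ha' hab hb' (by linarith) (by linarith)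
      · exact q10b e b a he (by linarith) hab hb' (by linarith)
    obtain ⟨v0, v1, v2, v3, g0, g1, g2, g3, hE⟩ := key
    exact ⟨v0, v2, v1, v3, g0, g2, g1, g3, mi hE⟩

/-! ## vectors -/

/-- QC: the smallest phase of a monopole in terms of the phases at the opposite edge. -/
def T_QC9 : Prop := ∀ (E : Type) [NormedAddCommGroup E] [InnerProductSpace ℂ E] (p : Fin 4 → E),
  Cl3 p → mn (p 0) (p 1) (p 2) (p 3) = -1 → 4 / 10 * Real.pi ≤ ar (p 0) (p 2) (p 3) →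
  4 / 10 * Real.pi ≤ ar (p 0) (p 3) (p 1) →
  (ar (p 0) (p 2) (p 3) + ar (p 0) (p 3) (p 1) ≤ 9 / 7 * Real.pi →
    292 / 1000 * Real.pi ≤ ar (p 0) (p 1) (p 2)) ∧
  (9 / 7 * Real.pi ≤ ar (p 0) (p 2) (p 3) + ar (p 0) (p 3) (p 1) →
    292 / 1000 * Real.pi - 279 / 1000 * (ar (p 0) (p 2) (p 3) + ar (p 0) (p 3) (p 1) -
      9 / 7 * Real.pi) ≤ ar (p 0) (p 1) (p 2))

theorem pf_QC9 (hMN : T_MN3) : T_QC9 := by
  intro E _ _ p hp hm h1 h2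
  have hpi := Real.pi_pos
  obtain ⟨u, hu⟩ : ∃ u, u = Real.pi / 14 := ⟨_, rfl⟩
  have hu0 : 0 < u := by rw [hu]; positivity
  have hpu : Real.pi = 14 * u := by rw [hu]; ring
  have T := tri hMN p hp
  have hw := pf_W33 hMN E (p ∘ ![3, 0, 2, 1]) ⟨fun _ => hp.1 _, fun _ _ => hp.2 _ _⟩
  have hw2 : ar (p 3) (p 0) (p 2) + ar (p 3) (p 2) (p 1) + ar (p 3) (p 1) (p 0) <
      25 * Real.pi / 14 := hw
  unfold mn at hm
  rw [div_eq_iff (by positivity)] at hm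
  have t1 : ar (p 3) (p 0) (p 2) = ar (p 0) (p 2) (p 3) := (T 0 2 3).2.2.2.1
  have t2 : ar (p 3) (p 2) (p 1) = -ar (p 1) (p 2) (p 3) := (T 1 2 3).2.2.2.2.1
  have t3 : ar (p 3) (p 1) (p 0) = ar (p 0) (p 3) (p 1) := (T 0 3 1).2.2.1
  have t4 : ar (p 0) (p 1) (p 3) = -ar (p 0) (p 3) (p 1) := (T 0 3 1).2.1
  have b1 := abs_lt.1 (T 0 2 3).2.2.2.2.2
  have b2 := abs_lt.1 (T 0 3 1).2.2.2.2.2
  have b3 := abs_lt.1 (T 1 2 3).2.2.2.2.2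
  obtain ⟨e, he⟩ : ∃ s, ar (p 0) (p 1) (p 2) = s * u := ⟨ar (p 0) (p 1) (p 2) / u, by field_simp⟩
  obtain ⟨a, ha⟩ : ∃ s, ar (p 0) (p 2) (p 3) = s * u := ⟨ar (p 0) (p 2) (p 3) / u, by field_simp⟩
  obtain ⟨b, hb⟩ : ∃ s, ar (p 0) (p 3) (p 1) = s * u := ⟨ar (p 0) (p 3) (p 1) / u, by field_simp⟩
  obtain ⟨c, hc0⟩ : ∃ s, ar (p 1) (p 2) (p 3) = s * u := ⟨ar (p 1) (p 2) (p 3) / u, by field_simp⟩
  have dw : ∀ {x y : ℝ}, x * u ≤ y * u → x ≤ y := fun h => le_of_mul_le_mul_right h hu0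
  rw [t4, he, ha, hb, hc0, hpu] at hm
  rw [t1, t2, t3, ha, hb, hc0, hpu] at hw2
  rw [ha, hpu] at h1 b1
  rw [hb, hpu] at h2 b2
  rw [hc0, hpu] at b3
  have fin : ((a + b ≤ 18 ∧ e < 511 / 125) ∨
      (18 ≤ a + b ∧ e < 511 / 125 - 279 / 1000 * (a + b - 18))) → False := by
    intro h
    obtain ⟨v0, v1, v2, v3, g0, g1, g2, g3, hE⟩ := im2 e a b (dw (by linarith))
      (dw (by linarith)) (dw (by linarith)) (dw (by linarith [b1.2])) (dw (by linarith [b2.2]))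
      (dw (by linarith [b3.1])) h
    refine Ex.elim (h := p 0) (a := p 1) (b := p 2) (c := p 3) (hp.1 _) (hp.1 _) (hp.1 _)
      (hp.1 _) (hp.2 _ _) (hp.2 _ _) (hp.2 _ _) (hp.2 _ _) (hp.2 _ _) (hp.2 _ _) g0.le g1 g2 g3 g0
      (x := e) (y := a) (z := b) (by rw [he, hu]) (by rw [ha, hu]) (by rw [t4, hb, hu])
      (-1) 0 0 ?_ ?_ ?_ hE
    · push_cast
      ring
    · push_cast
      ring
    · push_cast
      ring
  have lt' : ∀ {x y : ℝ}, x * u < y * u → x < y := fun h => lt_of_mul_lt_mul_right h hu0.le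
  rw [he, ha, hb, hpu]
  constructor
  · intro hy
    by_contra hc
    push Not at hc
    exact fin (Or.inl ⟨dw (by linarith), lt' (by linarith)⟩)
  · intro hy
    by_contra hc
    push Not at hc
    exact fin (Or.inr ⟨dw (by linarith), lt' (by linarith)⟩)

end Pool.Agent.H58.QC
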