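import Pool.Agent.H58.FN.Asm
import Pool.Agent.H58.FN.HP9
import Pool.Agent.H86.FRW.W4R
import Pool.Agent.H81.CP.Z

/-!
MP_6a7a6f_gt: the geometry at the level of `rad 3`: the last two rows.
-/

namespace Pool.Agent.H58.FN.A

open Pool.Agent.H58.FN

theorem cW4R : Pool.Agent.H59.CPT.T_W4R := Pool.Agent.H86.FRW.pf_W4R cTR3

theorem cX73 : T_X73 := Pool.Agent.H81.CP.pf_X73 cMN3 cW4R

theorem cHP3 : T_HP3 :=
  Pool.Agent.H58.LP9.pf_HP9 (Pool.Agent.H81.CP.pf_W33 cMN3) cW4R (Pool.Agent.H81.CP.pf_ZA cMN3)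
    (Pool.Agent.H81.CP.pf_ZB cMN3) (Pool.Agent.H58.QC.pf_QC9 cMN3)

theorem gE3 : T_EX3 := cEX3 cX73 cHP3

end Pool.Agent.H58.FN.A
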