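import Pool.Agent.H58.FL.TargetsD
import Pool.Agent.H30.FA.TC
import Pool.Agent.H58.FM.TC2

/-!
MP_6a7a6f_gt, exact value of the filling radius of the complex projective spaces of dimensions 3
and 6: definitions.

Labels: the six labels of the pentagonal pyramid, rim `0, ..., 4`, apex `5`.
-/

open Topology

namespace Pool.Agent.H58.FN

open Pool.Agent.H59 Pool.Agent.H48.FR Pool.Agent.H58.FL Pool.Agent.H30.FA Pool.Agent.H58.FM

noncomputable section

/-! ## patterns -/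

/-- the sign of three points of a regular polygon with `N` vertices (zero if the triangle does not
contain the center) -/
def tau (N a b c : ℕ) : ℤ :=
  if a < N ∧ b < N ∧ c < N then
    (let x := (b + N - a) % N
     let y := (c + N - a) % N
     if 0 < x ∧ x < y ∧ 2 * x < N ∧ 2 * (y - x) < N ∧ 2 * (N - y) < N then 1
     else if 0 < y ∧ y < x ∧ 2 * y < N ∧ 2 * (x - y) < N ∧ 2 * (N - x) < N then -1
     else 0)
  else 0

/-- the monopoles of the pyramid over the regular polygon with `N` vertices; `N` is the apex -/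
def pyr (N a b c d : ℕ) : ℤ :=
  (if a = N then tau N b c d else 0) - (if b = N then tau N a c d else 0) +
    (if c = N then tau N a b d else 0) - (if d = N then tau N a b c else 0)

/-- the pentagonal pyramid -/
def pen (a b c d : Fin 6) : ℤ := pyr 5 a b c d

/-- the heptagonal pyramid -/
def hep (a b c d : Fin 8) : ℤ := pyr 7 a b c d

/-- the sign of three numbers among `4, 5, 6` -/
def e3 (a b c : ℕ) : ℤ :=
  if 4 ≤ a ∧ 4 ≤ b ∧ 4 ≤ c then (((b : ℤ) - a) * ((c : ℤ) - a) * ((c : ℤ) - b)) / 2 else 0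

/-- the labels `0` of `0`, `1` of `1, 4`, `2` of `2, 5`, `3` of `3, 6` -/
def lb (a : ℕ) : Fin 4 := if a = 0 then 0 else if a = 1 ∨ a = 4 then 1 else
  if a = 2 ∨ a = 5 then 2 else 3

/-- the exceptional pattern with seven points: `P = 0`, `A = 1, 2, 3`, `B = 4, 5, 6`; the monopoles
are `P A A A`, `P A_i A_j B_k`, `P A_i B_j B_k`, `A_i B B B` -/
def x7 (a b c d : Fin 7) : ℤ :=
  sg4 (lb a) (lb b) (lb c) (lb d) - (e3 b c d - e3 a c d + e3 a b d - e3 a b c)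

section abs

variable {X : Type}

/-- the properties of the monopole number on a set of pairwise close points -/
structure Mo (S : Set X) (m : X → X → X → X → ℤ) : Prop where
  alt : ∀ x ∈ S, ∀ y ∈ S, ∀ z ∈ S, ∀ w ∈ S, m y x z w = -m x y z w ∧ m x z y w = -m x y z w ∧
    m x y w z = -m x y z w ∧ |m x y z w| ≤ 1
  coc : ∀ x ∈ S, ∀ y ∈ S, ∀ z ∈ S, ∀ w ∈ S, ∀ v ∈ S,
    m y z w v - m x z w v + m x y w v - m x y z v + m x y z w = 0
  exc : ∀ x ∈ S, ∀ y ∈ S, ∀ z ∈ S, ∀ w ∈ S, ∀ v ∈ S, m x y z w ≠ 0 →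
    (m v y z w ≠ 0 ∧ m x v z w = 0 ∧ m x y v w = 0 ∧ m x y z v = 0) ∨
    (m v y z w = 0 ∧ m x v z w ≠ 0 ∧ m x y v w = 0 ∧ m x y z v = 0) ∨
    (m v y z w = 0 ∧ m x v z w = 0 ∧ m x y v w ≠ 0 ∧ m x y z v = 0) ∨
    (m v y z w = 0 ∧ m x v z w = 0 ∧ m x y v w = 0 ∧ m x y z v ≠ 0)
  hex : ∀ p : Fin 6 → X, (∀ i, p i ∈ S) → m (p 0) (p 1) (p 2) (p 3) ≠ 0 →
    m (p 1) (p 2) (p 3) (p 4) ≠ 0 → m (p 2) (p 3) (p 4) (p 5) ≠ 0 →
    m (p 3) (p 4) (p 5) (p 0) ≠ 0 → m (p 4) (p 5) (p 0) (p 1) ≠ 0 →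
    m (p 5) (p 0) (p 1) (p 2) ≠ 0 → False
  ttt : ∀ p : Fin 6 → X, (∀ i, p i ∈ S) → m (p 0) (p 1) (p 2) (p 3) ≠ 0 →
    m (p 0) (p 1) (p 2) (p 4) ≠ 0 → m (p 0) (p 1) (p 2) (p 5) ≠ 0 →
    m (p 0) (p 3) (p 4) (p 5) ≠ 0 → m (p 1) (p 3) (p 4) (p 5) ≠ 0 →
    m (p 2) (p 3) (p 4) (p 5) ≠ 0 → False

/-- a pentagonal pyramid -/
def IsPy (m : X → X → X → X → ℤ) (p : Fin 6 → X) : Prop :=
  ∀ i j k l, m (p i) (p j) (p k) (p l) = pen i j k l

/-- an exceptional configuration of seven points -/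
def IsX7 (m : X → X → X → X → ℤ) (p : Fin 7 → X) : Prop :=
  ∀ i j k l, m (p i) (p j) (p k) (p l) = x7 i j k l

/-- a heptagonal pyramid -/
def IsHp (m : X → X → X → X → ℤ) (p : Fin 8 → X) : Prop :=
  ∀ i j k l, m (p i) (p j) (p k) (p l) = hep i j k l

/-- no exceptional configurations and no heptagonal pyramids -/
structure Ex (S : Set X) (m : X → X → X → X → ℤ) : Prop where
  nx7 : ∀ p : Fin 7 → X, (∀ i, p i ∈ S) → ¬ IsX7 m p
  nhp : ∀ p : Fin 8 → X, (∀ i, p i ∈ S) → ¬ IsHp m p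

end abs

/-! ## phases -/

/-- the level of `rad 3` -/
def k3 : ℝ := 1 / (4 * Real.cos (Real.pi / 14) ^ 2)

section geo

variable {E : Type} [NormedAddCommGroup E] [InnerProductSpace ℂ E]

/-- close unit vectors -/
def Ad3 (a b : E) : Prop := k3 < ‖inner ℂ a b‖ ^ 2

/-- unit vectors, pairwise close (a list of points, also equal ones) -/
def Cl3 {n : ℕ} (p : Fin n → E) : Prop := (∀ i, ‖p i‖ = 1) ∧ ∀ i j, Ad3 (p i) (p j)

/-- the vectors of the set are labelled by the vertices of the pentagonal pyramid -/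
def Lb (S : Set E) : Prop := ∃ c : E → Fin 6, ∀ x ∈ S, ∀ y ∈ S, ∀ z ∈ S, ∀ w ∈ S,
  mn x y z w = pen (c x) (c y) (c z) (c w)

/-- All sets of unit vectors which are pairwise close at the level `κ` are labelled. -/
def Lab (κ : ℝ) : Prop := ∀ (E : Type) [NormedAddCommGroup E] [InnerProductSpace ℂ E] (S : Set E),
  (∀ x ∈ S, ‖x‖ = 1) → (∀ x ∈ S, ∀ y ∈ S, Adj κ x y) → Lb S

/-- the normalised phase -/
def pa (a b c : E) : ℝ := ar a b c / (2 * Real.pi)

/-! ## families of points -/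

section avg

variable {J X : Type} {a b : ℕ}

/-- the mean phase cochain of a family of `a` points -/
def UU (x : J → E) (A : X → Fin a → J) (f g h : X) : ℝ :=
  (∑ i, ∑ j, ∑ k, pa (x (A f i)) (x (A g j)) (x (A h k))) / (a : ℝ) ^ 3

/-- the prism between two families of points -/
def EE (x : J → E) (A : X → Fin a → J) (B : X → Fin b → J) (f g : X) : ℝ :=
  (∑ i, ∑ j, ∑ k, pa (x (A f i)) (x (A g j)) (x (B g k))) / ((a : ℝ) ^ 2 * b) -
    (∑ i, ∑ j, ∑ k, pa (x (A f i)) (x (B f j)) (x (B g k))) / ((a : ℝ) * (b : ℝ) ^ 2)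

/-- the mean monopole number of four families of points -/
def MM {a b c d : ℕ} (x : J → E) (A : Fin a → J) (B : Fin b → J) (C : Fin c → J) (D : Fin d → J) :
    ℝ :=
  (∑ i, ∑ j, ∑ k, ∑ l, mn (x (A i)) (x (B j)) (x (C k)) (x (D l))) / ((a : ℝ) * b * c * d)

end avg

/-! ## weights -/

section wts

variable {J X : Type} [Fintype J]

/-- a monopole with all weights larger than `a` -/
def HM (x : J → E) (a : ℝ) (w : J → ℝ) : Prop := ∃ q : Fin 4 → J,
  mn (x (q 0)) (x (q 1)) (x (q 2)) (x (q 3)) ≠ 0 ∧ ∀ i, a < w (q i)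

/-- `p` is a pentagonal pyramid -/
def IsP (x : J → E) (p : Fin 6 → J) : Prop :=
  ∀ i j k l, mn (x (p i)) (x (p j)) (x (p k)) (x (p l)) = pen i j k l

/-- a pentagonal pyramid with all weights larger than `a` -/
def HP (x : J → E) (a : ℝ) (w : J → ℝ) : Prop := ∃ p : Fin 6 → J, IsP x p ∧ ∀ i, a < w (p i)

/-- `q` is a heaviest positive monopole among those with all weights larger than `a` -/
def IsQ (x : J → E) (a : ℝ) (w : J → ℝ) (q : Fin 4 → J) : Prop :=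
  mn (x (q 0)) (x (q 1)) (x (q 2)) (x (q 3)) = 1 ∧ (∀ i, a < w (q i)) ∧
  ∀ q' : Fin 4 → J, mn (x (q' 0)) (x (q' 1)) (x (q' 2)) (x (q' 3)) = 1 → (∀ i, a < w (q' i)) →
    ∑ i, w (q' i) ≤ ∑ i, w (q i)

/-- `p` is a heaviest pyramid among those with all weights larger than `a` -/
def IsH (x : J → E) (a : ℝ) (w : J → ℝ) (p : Fin 6 → J) : Prop :=
  IsP x p ∧ (∀ i, a < w (p i)) ∧
  ∀ p' : Fin 6 → J, IsP x p' → (∀ i, a < w (p' i)) → ∑ i, w (p' i) ≤ ∑ i, w (p i)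

/-- small sets: the weights vary by at most `δ` -/
def Kt (t : X → J → ℝ) (δ : ℝ) : Set (Set X) := {S | ∀ u ∈ S, ∀ v ∈ S, ∑ j, |t u j - t v j| ≤ δ}

/-- small sets without heavy monopoles -/
def K1 (x : J → E) (t : X → J → ℝ) (δ : ℝ) : Set (Set X) :=
  {S | S ∈ Kt t δ ∧ ∀ u ∈ S, ¬ HM x (24 * δ) (t u)}

/-- small sets with monopoles -/
def K2 (x : J → E) (t : X → J → ℝ) (δ : ℝ) : Set (Set X) :=
  {S | S ∈ Kt t δ ∧ ∀ u ∈ S, HM x (20 * δ) (t u)}

/-- Selected points: `v u` has the largest weight, `q u` is a heaviest positive monopole, `p u` a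
heaviest pyramid, `l u` the number of the lightest point of `q u`. -/
structure Sel (κ : ℝ) (x : J → E) (t : X → J → ℝ) (δ : ℝ) where
  v : X → J
  q : X → Fin 4 → J
  p : X → Fin 6 → J
  l : X → Fin 4
  norm_x : ∀ j, ‖x j‖ = 1
  wt : ∀ u, Wt (t u)
  adj : ∀ u i j, t u i ≠ 0 → t u j ≠ 0 → κ ≤ ‖inner ℂ (x i) (x j)‖ ^ 2
  k_pos : 0 < κ
  lab : ∀ S : Set E, (∀ y ∈ S, ‖y‖ = 1) → (∀ y ∈ S, ∀ z ∈ S, Adj κ y z) → Lb S
  d_pos : 0 < δ
  d_small : ∀ u, 40 * δ ≤ t u (v u)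
  v_max : ∀ u j, t u j ≤ t u (v u)
  q_max : ∀ u, HM x (20 * δ) (t u) → IsQ x (20 * δ) (t u) (q u)
  p_max : ∀ u, HP x (4 * δ) (t u) → IsH x (4 * δ) (t u) (p u)
  l_min : ∀ u i, t u (q u (l u)) ≤ t u (q u i)

end wts

end geo

end

end Pool.Agent.H58.FN
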