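import Pool.Agent.H58.FN.Targets
import Pool.Agent.H58.FL.FinalD

/-!
MP_6a7a6f_gt: the order of the fundamental class between `rad 1` and `rad 3` for odd dimensions.
-/

namespace Pool.Agent.H58.FN

open Pool.Agent.H48.FR Pool.Agent.H58.FL

lemma killsN_iff_3 (hE : T_EX3) (hB : T_BIN) (n : ℕ) (hn : 1 ≤ n) (ho : Odd n) (ε : ℝ)
    (hε : 0 < ε) (h1 : rad 1 < ε) (h2 : ε < rad 3) (N : ℤ) :
    KillsN N (2 * n) (kc (CPn n) ε hε) ↔ (n : ℤ) ∣ N := by
  constructor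
  · intro h
    exact hE.1 n ε hε hn h2 N h n ho dvd_rfl
  · rintro ⟨a, rfl⟩
    have h3 := killsN_choose hB n 1 le_rfl hn ε hε h1
    rw [Nat.choose_one_right] at h3
    unfold KillsN at h3 ⊢
    rw [mul_comm (n : ℤ) a, mul_smul, h3, smul_zero]

end Pool.Agent.H58.FN
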