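import Pool.Agent.H58.FN.Targets

/-!
MP_6a7a6f_gt: `rad 2 < rad 3`.
-/

namespace Pool.Agent.H58.FN

open Pool.Agent.H48.FR Pool.Agent.H58.FL

lemma rad_two_lt_three (h2 : T_RD2) (h3 : T_RD3) : rad 2 < rad 3 := by
  rw [h2.1, h2.2.1, h3.1]
  obtain ⟨-, -, k1, k2', -⟩ := h3
  have h5 : (0 : ℝ) < Real.sqrt 5 := Real.sqrt_pos.2 (by norm_num)
  have h6 : (223 / 100 : ℝ) < Real.sqrt 5 := by
    rw [Real.lt_sqrt (by norm_num)]
    norm_num
  have hinv : (Real.sqrt 5)⁻¹ < 100 / 223 := by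
    rw [inv_lt_comm₀ h5 (by norm_num)]
    norm_num
    linarith
  have hinv0 : 0 < (Real.sqrt 5)⁻¹ := inv_pos.2 h5
  have h : Real.arccos (-(Real.sqrt 5)⁻¹) < Real.arccos (2 * k3 - 1) :=
    Real.strictAntiOn_arccos (by constructor <;> linarith) (by constructor <;> linarith)
      (by linarith)
  linarith

end Pool.Agent.H58.FN
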