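import Pool.Agent.H58.FN.Defs

/-!
MP_6a7a6f_gt, exact value of the filling radius of the complex projective spaces of dimensions 3
and 6: targets of part C (combinatorics) and part T (topology), board fnc_modules.
-/

open Topology

namespace Pool.Agent.H58.FN

open Pool.Agent.H59 Pool.Agent.H48.FR Pool.Agent.H58.FL Pool.Agent.H30.FA Pool.Agent.H58.FM

noncomputable section

/-! ## C. Combinatorics -/

/-- PBS: the patterns are alternating cocycles; every proper subset of the labels of the pentagonal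
pyramid can be mapped to four labels, and conversely. -/
def T_PBS : Prop :=
  (∀ a b c d : Fin 6, pen b a c d = -pen a b c d ∧ pen a c b d = -pen a b c d ∧
    pen a b d c = -pen a b c d) ∧
  (∀ a b c d e : Fin 6, pen b c d e - pen a c d e + pen a b d e - pen a b c e + pen a b c d = 0) ∧
  (∀ a b : Fin 6, a ≠ b → ∃ c d, pen a b c d ≠ 0) ∧
  (∀ a b c d : Fin 6, a ≠ 5 → b ≠ 5 → c ≠ 5 → d ≠ 5 → pen a b c d = 0) ∧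
  (∀ e : Fin 6, ∃ g : Fin 6 → Fin 4, ∀ a b c d : Fin 6, a ≠ e → b ≠ e → c ≠ e → d ≠ e →
    pen a b c d = sg4 (g a) (g b) (g c) (g d)) ∧
  (∃ g : Fin 4 → Fin 6, ∀ a b c d : Fin 4, sg4 a b c d = pen (g a) (g b) (g c) (g d)) ∧
  (∀ f : Fin 6 → Fin 6, (∀ i j k l, pen i j k l = pen (f i) (f j) (f k) (f l)) →
    Function.Bijective f ∧ f 5 = 5) ∧
  (∀ f : Fin 4 → Fin 4, sg4 (f 0) (f 1) (f 2) (f 3) ≠ 0 → Function.Bijective f)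

/-- SX3: six points without a pentagonal pyramid. -/
def T_SX3 : Prop := ∀ (X : Type) (S : Set X) (m : X → X → X → X → ℤ), Mo S m →
  (∀ p : Fin 6 → X, (∀ i, p i ∈ S) → ¬ IsPy m p) →
  ∀ v ∈ S, ∀ w ∈ S, ∀ a ∈ S, ∀ b ∈ S, ∀ c ∈ S, ∀ z ∈ S, m v a b c ≠ 0 → m w a b c ≠ 0 →
    m v w a z = 0

/-- PX7: a pentagonal pyramid and one more point. -/
def T_PX7 : Prop := ∀ (X : Type) (S : Set X) (m : X → X → X → X → ℤ), Mo S m →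
  (∀ p : Fin 7 → X, (∀ i, p i ∈ S) → ¬ IsX7 m p) →
  ∀ p : Fin 6 → X, (∀ i, p i ∈ S) → IsPy m p → ∀ x ∈ S, ∃ l : Fin 6, ∀ i j k,
    m x (p i) (p j) (p k) = pen l i j k

/-- PX8: a pentagonal pyramid and two more points. -/
def T_PX8 : Prop := ∀ (X : Type) (S : Set X) (m : X → X → X → X → ℤ), Mo S m → Ex S m →
  ∀ p : Fin 6 → X, (∀ i, p i ∈ S) → IsPy m p → ∀ x ∈ S, ∀ y ∈ S, ∀ l k : Fin 6,
    (∀ a b c, m x (p a) (p b) (p c) = pen l a b c) →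
    (∀ a b c, m y (p a) (p b) (p c) = pen k a b c) → ∀ a b, m x y (p a) (p b) = pen l k a b

/-- CLP: labelling of all points. -/
def T_CLP : Prop := ∀ (X : Type) (S : Set X) (m : X → X → X → X → ℤ), Mo S m → Ex S m →
  ∃ c : X → Fin 6, ∀ x ∈ S, ∀ y ∈ S, ∀ z ∈ S, ∀ w ∈ S, m x y z w = pen (c x) (c y) (c z) (c w)

/-! ## T. Topology: abstract part -/

/-- AB3: the algebraic theorem with three families. -/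
def T_AB3 : Prop := ∀ (X : Type) (K₁ K₂ : Set (Set X)), Down K₁ → Down K₂ →
  ∀ (u c : X → X → X → ℝ) (θ₁ θ₂ : X → X → ℝ) (η : Fin 3 → X → X → ℝ), Cl2 K₁ u → Cl2 K₂ c →
  (∀ S ∈ K₁ ∩ K₂, ∀ x ∈ S, ∀ y ∈ S, ∀ z ∈ S, ∃ j : ℤ, u x y z - d1 θ₁ x y z = j) →
  (∀ S ∈ K₁ ∩ K₂, ∀ x ∈ S, ∀ y ∈ S, ∀ z ∈ S, ∃ j : ℤ, 64 * c x y z - d1 θ₂ x y z = j) →
  (∀ S ∈ K₁ ∩ K₂, S.Nonempty → ∃ i, ∀ x ∈ S, ∀ y ∈ S, ∀ z ∈ S,
    u x y z - c x y z = d1 (η i) x y z) →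
  ∀ (n : ℕ), 1 ≤ n → ∀ b : LL (2 * n + 2) X, On (K₁ ∪ K₂) b →
  (∀ t ∈ (bdL (2 * n + 1) X b).support, Set.range t ∈ K₁ ∧ Set.range t ∉ K₂) →
  ∃ B₁ B₂ : ℤ, 64 ^ n * ev (2 * n) (PL (List.replicate n u)) (bdL (2 * n + 1) X b) =
    n * B₁ + n.choose 2 * B₂

/-- ODD: arithmetic. -/
def T_ODD : Prop := ∀ (n m : ℕ) (N B₁ B₂ : ℤ), 1 ≤ n → Odd m → m ∣ n →
  (64 ^ n * N = n * B₁ + n.choose 2 * B₂ ∨ 64 ^ n * (-N) = n * B₁ + n.choose 2 * B₂) →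
  (m : ℤ) ∣ N

/-- GLU: gluing of two closed cochains. -/
def T_GLU : Prop := ∀ (X : Type) (K : Set (Set X)) (P Q : X → Prop),
  (∀ S ∈ K, (∀ u ∈ S, P u) ∨ (∀ u ∈ S, Q u)) → Down K →
  ∀ (g₄ g₆ : X → X → X → ℝ) (η θ₄ θ₆ : X → X → ℝ) (μ : X → ℝ),
  (∀ S ∈ K, (∀ u ∈ S, P u) → ∀ x ∈ S, ∀ y ∈ S, ∀ z ∈ S, ∀ w ∈ S, d2 g₄ x y z w = 0) →
  (∀ S ∈ K, (∀ u ∈ S, Q u) → ∀ x ∈ S, ∀ y ∈ S, ∀ z ∈ S, ∀ w ∈ S, d2 g₆ x y z w = 0) →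
  (∀ S ∈ K, (∀ u ∈ S, P u ∧ Q u) → ∀ x ∈ S, ∀ y ∈ S, ∀ z ∈ S,
    g₄ x y z - g₆ x y z = d1 η x y z) →
  (∀ S ∈ K, (∀ u ∈ S, P u) → ∀ x ∈ S, ∀ y ∈ S, ∀ z ∈ S,
    ∃ j : ℤ, 64 * g₄ x y z - d1 θ₄ x y z = j) →
  (∀ S ∈ K, (∀ u ∈ S, Q u) → ∀ x ∈ S, ∀ y ∈ S, ∀ z ∈ S,
    ∃ j : ℤ, 64 * g₆ x y z - d1 θ₆ x y z = j) →
  (∀ S ∈ K, (∀ u ∈ S, P u ∧ Q u) → ∀ x ∈ S, ∀ y ∈ S,
    ∃ j : ℤ, θ₄ x y - θ₆ x y - 64 * η x y + (μ y - μ x) = j) →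
  ∃ (c : X → X → X → ℝ) (η' θ : X → X → ℝ), Cl2 K c ∧
    (∀ S ∈ K, (∀ u ∈ S, P u) → ∀ x ∈ S, ∀ y ∈ S, ∀ z ∈ S, c x y z = g₄ x y z) ∧
    (∀ S ∈ K, (∀ u ∈ S, Q u) → ∀ x ∈ S, ∀ y ∈ S, ∀ z ∈ S,
      c x y z = g₆ x y z + d1 η' x y z) ∧
    ∀ S ∈ K, ∀ x ∈ S, ∀ y ∈ S, ∀ z ∈ S, ∃ j : ℤ, 64 * c x y z - d1 θ x y z = j

/-! ## T. Topology: families of points -/

/-- UMM: coboundary of the mean phase cochain. -/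
def T_UMM : Prop := ∀ (E J X : Type) [NormedAddCommGroup E] [InnerProductSpace ℂ E] (a : ℕ)
  (x : J → E) (A : X → Fin a → J), 0 < a → ∀ f g h k : X,
  d2 (UU x A) f g h k = MM x (A f) (A g) (A h) (A k)

/-- PRM: the prism formula. -/
def T_PRM : Prop := ∀ (E J X : Type) [NormedAddCommGroup E] [InnerProductSpace ℂ E] (a b : ℕ)
  (x : J → E) (A : X → Fin a → J) (B : X → Fin b → J), 0 < a → 0 < b → ∀ f g h : X,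
  UU x A f g h - UU x B f g h = d1 (EE x A B) f g h - MM x (A f) (A g) (A h) (B h) +
    MM x (A f) (A g) (B g) (B h) - MM x (A f) (B f) (B g) (B h)

/-- the argument of the inner product, normalised -/
def th {E : Type} [NormedAddCommGroup E] [InnerProductSpace ℂ E] (a b : E) : ℝ :=
  (inner ℂ a b).arg / (2 * Real.pi)

/-- INT: integrality of the mean phase cochains (four points, and one point) and of the prism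
between them. -/
def T_INT : Prop := ∀ (E J X : Type) [NormedAddCommGroup E] [InnerProductSpace ℂ E]
  (x : J → E) (A : X → Fin 4 → J) (B : X → Fin 1 → J) (S : Set X),
  ((∀ f ∈ S, ∀ g ∈ S, ∀ i j, inner ℂ (x (A f i)) (x (A g j)) ≠ 0) → ∀ f ∈ S, ∀ g ∈ S, ∀ h ∈ S,
    ∃ z : ℤ, 64 * UU x A f g h -
      d1 (fun f g => 4 * ∑ i, ∑ j, th (x (A f i)) (x (A g j))) f g h = z) ∧
  ((∀ f ∈ S, ∀ g ∈ S, inner ℂ (x (B f 0)) (x (B g 0)) ≠ 0) → ∀ f ∈ S, ∀ g ∈ S, ∀ h ∈ S,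
    (∃ z : ℤ, UU x B f g h - d1 (fun f g => th (x (B f 0)) (x (B g 0))) f g h = z) ∧
    (∃ z : ℤ, 64 * UU x B f g h - d1 (fun f g => 64 * th (x (B f 0)) (x (B g 0))) f g h = z)) ∧
  ((∀ f ∈ S, ∀ g ∈ S, ∀ i j, inner ℂ (x (A f i)) (x (A g j)) ≠ 0) →
    (∀ f ∈ S, ∀ g ∈ S, ∀ i, inner ℂ (x (A f i)) (x (B g 0)) ≠ 0) →
    (∀ f ∈ S, ∀ g ∈ S, inner ℂ (x (B f 0)) (x (B g 0)) ≠ 0) → ∀ f ∈ S, ∀ g ∈ S,
    ∃ z : ℤ, 4 * ∑ i, ∑ j, th (x (A f i)) (x (A g j)) - 64 * th (x (B f 0)) (x (B g 0)) -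
      64 * EE x A B f g + (16 * ∑ i, th (x (A g i)) (x (B g 0)) -
        16 * ∑ i, th (x (A f i)) (x (B f 0))) = z)

/-- MLB: the mean monopole numbers of labelled families: if two of the families have the same
distribution of labels, all labels once, the mean is zero. -/
def T_MLB : Prop := ∀ (E J : Type) [NormedAddCommGroup E] [InnerProductSpace ℂ E] (x : J → E)
  (c : J → Fin 4) (H : Set J),
  (∀ i ∈ H, ∀ j ∈ H, ∀ k ∈ H, ∀ l ∈ H, mn (x i) (x j) (x k) (x l) =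
    sg4 (c i) (c j) (c k) (c l)) →
  ∀ (a b : ℕ) (A : Fin a → J) (B : Fin b → J) (q q' : Fin 4 → J),
  (∀ i, A i ∈ H) → (∀ i, B i ∈ H) → (∀ i, q i ∈ H) → (∀ i, q' i ∈ H) →
  Function.Bijective (c ∘ q) → Function.Bijective (c ∘ q') →
  MM x A B q q' = 0 ∧ MM x A q q' B = 0 ∧ MM x q q' A B = 0

/-! ## T. Topology: the selected points -/

section sel

variable {E J X : Type} [NormedAddCommGroup E] [InnerProductSpace ℂ E] [Fintype J]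
  {κ δ : ℝ} {x : J → E} {t : X → J → ℝ}

/-- the point with the largest weight, as a family of one point -/
def Sel.vv (σ : Sel κ x t δ) (f : X) (_ : Fin 1) : J := σ.v f

/-- the apex of the pyramid, as a family of one point -/
def Sel.hh (σ : Sel κ x t δ) (f : X) (_ : Fin 1) : J := σ.p f 5

/-- the points of largest weight form monopoles with the points of the selected monopoles -/
def Sel.D4 (σ : Sel κ x t δ) (S : Set X) : Prop := ∃ f ∈ S, ∃ g ∈ S, ∃ h ∈ S, ∃ k ∈ S, ∃ i,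
  mn (x (σ.v f)) (x (σ.v g)) (x (σ.v h)) (x (σ.q k i)) ≠ 0

/-- the points of largest weight form monopoles with the apex -/
def Sel.D6 (σ : Sel κ x t δ) (S : Set X) : Prop := ∃ f ∈ S, ∃ g ∈ S, ∃ h ∈ S, ∃ k ∈ S,
  mn (x (σ.v f)) (x (σ.v g)) (x (σ.v h)) (x (σ.p k 5)) ≠ 0

/-- the correction in the case of four classes -/
def Sel.x1 (σ : Sel κ x t δ) (f g : X) : ℝ :=
  -(1 / 12) * ∑ i, mn (x (σ.q f i)) (x (σ.v f)) (x (σ.v g)) (x (σ.q f (σ.l f)))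

/-- the correction in the case of pyramids -/
def Sel.x2 (σ : Sel κ x t δ) (f g : X) : ℝ :=
  -(1 / 5) * ∑ i : Fin 5, mn (x (σ.p f i.castSucc)) (x (σ.v f)) (x (σ.v g)) (x (σ.p f 5))

end sel

/-- SEL: existence of the selected points. -/
def T_SEL3 : Prop := ∀ (E J X : Type) [NormedAddCommGroup E] [InnerProductSpace ℂ E] [Fintype J]
  (κ δ : ℝ) (x : J → E) (t : X → J → ℝ), (∀ j, ‖x j‖ = 1) → (∀ u, Wt (t u)) →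
  (∀ u i j, t u i ≠ 0 → t u j ≠ 0 → κ ≤ ‖inner ℂ (x i) (x j)‖ ^ 2) → 0 < κ → Lab κ → 0 < δ →
  40 * δ * Fintype.card J ≤ 1 → Nonempty (Sel κ x t δ)

/-- CLQ: the points with a weight larger than `δ` somewhere on a small set are pairwise close;
`u` is closed on the sets without heavy monopoles, and exact modulo integers. -/
def T_CLQ : Prop := ∀ (E J X : Type) [NormedAddCommGroup E] [InnerProductSpace ℂ E] [Fintype J]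
  (κ δ : ℝ) (x : J → E) (t : X → J → ℝ) (σ : Sel κ x t δ) (S : Set X), S ∈ Kt t δ →
  (∀ f ∈ S, ∀ g ∈ S, ∀ j, t f j ≤ t g j + δ) ∧
  (∀ f ∈ S, ∀ g ∈ S, ∀ i j, δ < t f i → δ < t g j → Adj κ (x i) (x j) ∧
    inner ℂ (x i) (x j) ≠ 0) ∧
  (∃ c : J → Fin 6, ∀ i j k l, (∃ f ∈ S, δ < t f i) → (∃ f ∈ S, δ < t f j) →
    (∃ f ∈ S, δ < t f k) → (∃ f ∈ S, δ < t f l) →
    mn (x i) (x j) (x k) (x l) = pen (c i) (c j) (c k) (c l)) ∧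
  (S ∈ K1 x t δ ∨ S ∈ K2 x t δ) ∧
  ((∀ f ∈ S, ¬ HP x (12 * δ) (t f)) ∨ (∀ f ∈ S, HP x (11 * δ) (t f))) ∧
  (S ∈ K1 x t δ → ∀ f ∈ S, ∀ g ∈ S, ∀ h ∈ S, ∀ k ∈ S,
    mn (x (σ.v f)) (x (σ.v g)) (x (σ.v h)) (x (σ.v k)) = 0)

/-- LB4: four labels on small sets with monopoles but without heavy pyramids. -/
def T_LB4 : Prop := ∀ (E J X : Type) [NormedAddCommGroup E] [InnerProductSpace ℂ E] [Fintype J]
  (κ δ : ℝ) (x : J → E) (t : X → J → ℝ) (σ : Sel κ x t δ) (S : Set X), S.Nonempty →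
  S ∈ K2 x t δ → (∀ f ∈ S, ¬ HP x (12 * δ) (t f)) →
  ∃ (c : J → Fin 4) (H : Set J), (∀ j, j ∈ H ↔ ∃ f ∈ S, 14 * δ < t f j) ∧
    (∀ i ∈ H, ∀ j ∈ H, ∀ k ∈ H, ∀ l ∈ H, mn (x i) (x j) (x k) (x l) =
      sg4 (c i) (c j) (c k) (c l)) ∧
    (∀ f ∈ S, (∀ i, σ.q f i ∈ H) ∧ σ.v f ∈ H ∧ Function.Bijective (c ∘ σ.q f) ∧
      ∀ i, ∀ j ∈ H, c j = c (σ.q f i) → t f j ≤ t f (σ.q f i))

/-- LB6: six labels on small sets with pyramids. -/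
def T_LB6 : Prop := ∀ (E J X : Type) [NormedAddCommGroup E] [InnerProductSpace ℂ E] [Fintype J]
  (κ δ : ℝ) (x : J → E) (t : X → J → ℝ) (σ : Sel κ x t δ) (S : Set X), S.Nonempty →
  S ∈ Kt t δ → (∀ f ∈ S, HP x (4 * δ) (t f)) →
  ∃ (c : J → Fin 6) (H : Set J), (∀ j, j ∈ H ↔ ∃ f ∈ S, 2 * δ < t f j) ∧
    (∀ i ∈ H, ∀ j ∈ H, ∀ k ∈ H, ∀ l ∈ H, mn (x i) (x j) (x k) (x l) =
      pen (c i) (c j) (c k) (c l)) ∧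
    (∀ f ∈ S, (∀ i, σ.p f i ∈ H) ∧ σ.v f ∈ H ∧ Function.Bijective (c ∘ σ.p f) ∧
      c (σ.p f 5) = 5 ∧ ∀ i, ∀ j ∈ H, c j = c (σ.p f i) → t f j ≤ t f (σ.p f i))

/-- FM4: the difference of the phase cochains on small sets without heavy pyramids. -/
def T_FM4 : Prop := ∀ (E J X : Type) [NormedAddCommGroup E] [InnerProductSpace ℂ E] [Fintype J]
  (κ δ : ℝ) (x : J → E) (t : X → J → ℝ) (σ : Sel κ x t δ) (S : Set X), S.Nonempty →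
  S ∈ K2 x t δ → (∀ f ∈ S, ¬ HP x (12 * δ) (t f)) →
  (∀ f ∈ S, ∀ g ∈ S, ∀ h ∈ S, ∀ k ∈ S, d2 (UU x σ.q) f g h k = 0) ∧
  (¬ σ.D4 S → ∀ f ∈ S, ∀ g ∈ S, ∀ h ∈ S,
    UU x σ.vv f g h - UU x σ.q f g h = d1 (EE x σ.vv σ.q) f g h) ∧
  (S ∈ K1 x t δ → σ.D4 S → ∀ f ∈ S, ∀ g ∈ S, ∀ h ∈ S,
    UU x σ.vv f g h - UU x σ.q f g h = d1 (fun f g => EE x σ.vv σ.q f g + σ.x1 f g) f g h)

/-- FM6: the difference of the phase cochains on small sets with pyramids. -/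
def T_FM6 : Prop := ∀ (E J X : Type) [NormedAddCommGroup E] [InnerProductSpace ℂ E] [Fintype J]
  (κ δ : ℝ) (x : J → E) (t : X → J → ℝ) (σ : Sel κ x t δ) (S : Set X), S.Nonempty →
  S ∈ Kt t δ → (∀ f ∈ S, HP x (4 * δ) (t f)) →
  (∀ f ∈ S, ∀ g ∈ S, ∀ h ∈ S, ∀ k ∈ S, d2 (UU x σ.hh) f g h k = 0) ∧
  (¬ σ.D6 S → ∀ f ∈ S, ∀ g ∈ S, ∀ h ∈ S,
    UU x σ.vv f g h - UU x σ.hh f g h = d1 (EE x σ.vv σ.hh) f g h) ∧
  (S ∈ K1 x t δ → σ.D6 S → ∀ f ∈ S, ∀ g ∈ S, ∀ h ∈ S,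
    UU x σ.vv f g h - UU x σ.hh f g h = d1 (fun f g => EE x σ.vv σ.hh f g + σ.x2 f g) f g h)

/-- FOV: the overlap. -/
def T_FOV : Prop := ∀ (E J X : Type) [NormedAddCommGroup E] [InnerProductSpace ℂ E] [Fintype J]
  (κ δ : ℝ) (x : J → E) (t : X → J → ℝ) (σ : Sel κ x t δ) (S : Set X), S.Nonempty →
  S ∈ K2 x t δ → (∀ f ∈ S, ¬ HP x (12 * δ) (t f)) → (∀ f ∈ S, HP x (4 * δ) (t f)) →
  (∀ f ∈ S, 14 * δ < t f (σ.p f 5)) ∧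
  (∀ f ∈ S, ∀ g ∈ S, ∀ h ∈ S, UU x σ.q f g h - UU x σ.hh f g h = d1 (EE x σ.q σ.hh) f g h) ∧
  (σ.D6 S → σ.D4 S)

/-- FR3: the frame: all hypotheses of AB3. -/
def T_FR3 : Prop := ∀ (E J X : Type) [NormedAddCommGroup E] [InnerProductSpace ℂ E] [Fintype J]
  (κ δ : ℝ) (x : J → E) (t : X → J → ℝ) (σ : Sel κ x t δ),
  Down (K1 x t δ) ∧ Down (K2 x t δ) ∧ Kt t δ ⊆ K1 x t δ ∪ K2 x t δ ∧
  Cl2 (K1 x t δ) (up fun f => x (σ.v f)) ∧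
  ∃ (c : X → X → X → ℝ) (θ₁ θ₂ : X → X → ℝ) (η : Fin 3 → X → X → ℝ), Cl2 (K2 x t δ) c ∧
    (∀ S ∈ K1 x t δ ∩ K2 x t δ, ∀ f ∈ S, ∀ g ∈ S, ∀ h ∈ S,
      ∃ j : ℤ, up (fun f => x (σ.v f)) f g h - d1 θ₁ f g h = j) ∧
    (∀ S ∈ K1 x t δ ∩ K2 x t δ, ∀ f ∈ S, ∀ g ∈ S, ∀ h ∈ S,
      ∃ j : ℤ, 64 * c f g h - d1 θ₂ f g h = j) ∧
    (∀ S ∈ K1 x t δ ∩ K2 x t δ, S.Nonempty → ∃ i, ∀ f ∈ S, ∀ g ∈ S, ∀ h ∈ S,
      up (fun f => x (σ.v f)) f g h - c f g h = d1 (η i) f g h)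

/-! ## T. Topology: projective spaces -/

/-- NMP: no monopoles near a point. -/
def T_NMP : Prop := ∀ (E : Type) [NormedAddCommGroup E] [InnerProductSpace ℂ E] (p a b c : E),
  ‖p‖ = 1 → ‖a‖ = 1 → ‖b‖ = 1 → ‖c‖ = 1 → 3 / 4 < ‖inner ℂ p a‖ ^ 2 → 3 / 4 < ‖inner ℂ p b‖ ^ 2 →
  3 / 4 < ‖inner ℂ p c‖ ^ 2 →
  mn p a b c = 0 ∧ mn a p b c = 0 ∧ mn a b p c = 0 ∧ mn a b c p = 0 ∧
  ∀ d : E, ‖d‖ = 1 → 3 / 4 < ‖inner ℂ p d‖ ^ 2 → mn a b c d = 0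

/-- VAL: the value of the power of the phase cochain of a family of points which are near. -/
def T_VAL : Prop := ∀ (n : ℕ) (s : ℝ) (f : CPn n → EuclideanSpace ℂ (Fin (n + 1))),
  0 < s → s < Real.pi / 6 → (∀ p, ‖f p‖ = 1) →
  (∀ p, Real.arccos ‖inner ℂ (f p) (rp p)‖ < s) →
  ∀ δ : ℝ, 0 < δ → s + δ ≤ Real.pi / 6 → ∀ c : LL (2 * n + 1) (CPn n), On (VS n δ) c →
  bdL (2 * n) (CPn n) c = 0 →
  ev (2 * n) (PL (List.replicate n (up f))) c = ev (2 * n) (PL (List.replicate n (ff n))) c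

/-- CO3: from the labelling to the divisibility. -/
def T_CO3 : Prop := ∀ κ : ℝ, 0 < κ → κ ≤ 1 → Lab κ → ∀ (n : ℕ) (ε : ℝ) (hε : 0 < ε), 1 ≤ n →
  ε < Real.pi / 6 → ε < Real.arccos (2 * κ - 1) / 4 → ∀ N : ℤ,
  KillsN N (2 * n) (kc (CPn n) ε hε) → ∀ m : ℕ, Odd m → m ∣ n → (m : ℤ) ∣ N

/-! ## G. Geometry: consequences of the wheels with four spokes -/

/-- TR3: the phase of a triangle. -/
def T_TR3 : Prop := ∀ (E : Type) [NormedAddCommGroup E] [InnerProductSpace ℂ E] (a b c : E),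
  ‖a‖ = 1 → ‖b‖ = 1 → ‖c‖ = 1 → Ad3 a b → Ad3 b c → Ad3 c a → |ar a b c| < 11 * Real.pi / 14

/-- MN3: the monopole number of four pairwise close points. -/
def T_MN3 : Prop := ∀ (E : Type) [NormedAddCommGroup E] [InnerProductSpace ℂ E],
  (∀ p : Fin 3 → E, Cl3 p → ar (p 1) (p 0) (p 2) = -ar (p 0) (p 1) (p 2) ∧
    ar (p 0) (p 2) (p 1) = -ar (p 0) (p 1) (p 2) ∧ ar (p 1) (p 2) (p 0) = ar (p 0) (p 1) (p 2) ∧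
    ar (p 2) (p 0) (p 1) = ar (p 0) (p 1) (p 2) ∧ ar (p 2) (p 1) (p 0) = -ar (p 0) (p 1) (p 2) ∧
    |ar (p 0) (p 1) (p 2)| < 11 * Real.pi / 14) ∧
  (∀ p : Fin 4 → E, Cl3 p → (mn (p 0) (p 1) (p 2) (p 3) = 0 ∨ mn (p 0) (p 1) (p 2) (p 3) = 1 ∨
      mn (p 0) (p 1) (p 2) (p 3) = -1) ∧
    mn (p 1) (p 0) (p 2) (p 3) = -mn (p 0) (p 1) (p 2) (p 3) ∧
    mn (p 0) (p 2) (p 1) (p 3) = -mn (p 0) (p 1) (p 2) (p 3) ∧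
    mn (p 0) (p 1) (p 3) (p 2) = -mn (p 0) (p 1) (p 2) (p 3)) ∧
  (∀ a b c d e : E, mn b c d e - mn a c d e + mn a b d e - mn a b c e + mn a b c d = 0)

/-- W4A: the wheels with four spokes. -/
def T_W4A : Prop := ∀ (E : Type) [NormedAddCommGroup E] [InnerProductSpace ℂ E] (h a b c d : E),
  ‖h‖ = 1 → ‖a‖ = 1 → ‖b‖ = 1 → ‖c‖ = 1 → ‖d‖ = 1 → Ad3 h a → Ad3 h b → Ad3 h c → Ad3 h d →
  Ad3 a b → Ad3 b c → Ad3 c d → Ad3 d a →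
  ar h a b + ar h b c + ar h c d + ar h d a < 2 * Real.pi

/-- R5A3: four monopoles around a hub are impossible. -/
def T_R5A3 : Prop := ∀ (E : Type) [NormedAddCommGroup E] [InnerProductSpace ℂ E] (p : Fin 5 → E),
  Cl3 p → mn (p 0) (p 1) (p 2) (p 3) ≠ 0 → mn (p 0) (p 1) (p 2) (p 4) ≠ 0 →
  mn (p 0) (p 1) (p 3) (p 4) ≠ 0 → mn (p 0) (p 2) (p 3) (p 4) ≠ 0 → False

/-- R53: the exchange property. -/
def T_R53 : Prop := ∀ (E : Type) [NormedAddCommGroup E] [InnerProductSpace ℂ E] (p : Fin 5 → E),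
  Cl3 p → mn (p 0) (p 1) (p 2) (p 3) ≠ 0 →
  (mn (p 4) (p 1) (p 2) (p 3) ≠ 0 ∧ mn (p 0) (p 4) (p 2) (p 3) = 0 ∧
    mn (p 0) (p 1) (p 4) (p 3) = 0 ∧ mn (p 0) (p 1) (p 2) (p 4) = 0) ∨
  (mn (p 4) (p 1) (p 2) (p 3) = 0 ∧ mn (p 0) (p 4) (p 2) (p 3) ≠ 0 ∧
    mn (p 0) (p 1) (p 4) (p 3) = 0 ∧ mn (p 0) (p 1) (p 2) (p 4) = 0) ∨
  (mn (p 4) (p 1) (p 2) (p 3) = 0 ∧ mn (p 0) (p 4) (p 2) (p 3) = 0 ∧
    mn (p 0) (p 1) (p 4) (p 3) ≠ 0 ∧ mn (p 0) (p 1) (p 2) (p 4) = 0) ∨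
  (mn (p 4) (p 1) (p 2) (p 3) = 0 ∧ mn (p 0) (p 4) (p 2) (p 3) = 0 ∧
    mn (p 0) (p 1) (p 4) (p 3) = 0 ∧ mn (p 0) (p 1) (p 2) (p 4) ≠ 0)

/-- HEX3: no hexagons. -/
def T_HEX3 : Prop := ∀ (E : Type) [NormedAddCommGroup E] [InnerProductSpace ℂ E] (p : Fin 6 → E),
  Cl3 p → mn (p 0) (p 1) (p 2) (p 3) ≠ 0 → mn (p 1) (p 2) (p 3) (p 4) ≠ 0 →
  mn (p 2) (p 3) (p 4) (p 5) ≠ 0 → mn (p 3) (p 4) (p 5) (p 0) ≠ 0 →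
  mn (p 4) (p 5) (p 0) (p 1) ≠ 0 → mn (p 5) (p 0) (p 1) (p 2) ≠ 0 → False

/-- TTT3: no two triangles. -/
def T_TTT3 : Prop := ∀ (E : Type) [NormedAddCommGroup E] [InnerProductSpace ℂ E] (p : Fin 6 → E),
  Cl3 p → mn (p 0) (p 1) (p 2) (p 3) ≠ 0 → mn (p 0) (p 1) (p 2) (p 4) ≠ 0 →
  mn (p 0) (p 1) (p 2) (p 5) ≠ 0 → mn (p 0) (p 3) (p 4) (p 5) ≠ 0 →
  mn (p 1) (p 3) (p 4) (p 5) ≠ 0 → mn (p 2) (p 3) (p 4) (p 5) ≠ 0 → False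

/-- X73: no exceptional configurations. -/
def T_X73 : Prop := ∀ (E : Type) [NormedAddCommGroup E] [InnerProductSpace ℂ E] (p : Fin 7 → E),
  Cl3 p → ¬ ∀ i j k l, mn (p i) (p j) (p k) (p l) = x7 i j k l

/-- HP3: no heptagonal pyramids. -/
def T_HP3 : Prop := ∀ (E : Type) [NormedAddCommGroup E] [InnerProductSpace ℂ E] (p : Fin 8 → E),
  Cl3 p → ¬ ∀ i j k l, mn (p i) (p j) (p k) (p l) = hep i j k l

/-- GE3: all sets of pairwise close vectors above the level of `rad 3` are labelled. -/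
def T_GE3 : Prop := ∀ κ : ℝ, k3 < κ → Lab κ

/-- RD3: the number `rad 3`. -/
def T_RD3 : Prop := rad 3 = Real.arccos (2 * k3 - 1) / 4 ∧ rad 3 < Real.pi / 6 ∧
  263 / 1000 < k3 ∧ k3 < 26303 / 100000 ∧
  ∀ ε : ℝ, ε < rad 3 → ∃ κ : ℝ, k3 < κ ∧ κ ≤ 1 ∧ ε < Real.arccos (2 * κ - 1) / 4

/-- EX3: divisibility below `rad 3` and the exact values. -/
def T_EX3 : Prop :=
  (∀ (n : ℕ) (ε : ℝ) (hε : 0 < ε), 1 ≤ n → ε < rad 3 → ∀ N : ℤ,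
    KillsN N (2 * n) (kc (CPn n) ε hε) → ∀ m : ℕ, Odd m → m ∣ n → (m : ℤ) ∣ N) ∧
  (∀ n : ℕ, 1 ≤ n → (¬ ∃ a : ℕ, n = 2 ^ a) → rad 3 ≤ FillR (CPn n) (2 * n)) ∧
  FillR (CPn 3) 6 = rad 3 ∧ FillR (CPn 6) 12 = rad 3

end

end Pool.Agent.H58.FN
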